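import Pool.Agent.Q11.CZ.Cls

/-!
# Colmez's class functions of a single CM type: the group theory

`G` is a finite group with a central involution `c`, acting transitively on `X`; `A` is a group acting
on `X` by maps `r a` which commute with `G`, with a central involution `z` acting as `c`.
-/

set_option autoImplicit false

open scoped Classical

namespace Pool.Agent.N770.CP

open Pool.Agent.Q11.CZ

variable {G : Type} [Group G] [Fintype G] {X : Type} [MulAction G X]

/-- The number of the conjugates of `g` which map `x` to `y`. -/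
noncomputable def cnt (x y : X) (g : G) : ℕ :=
  (Finset.univ.filter fun h : G => (h⁻¹ * g * h) • x = y).card

lemma cnt_unlinked {x y : X} {c k : G} (hk : k • x = x) (hy : k • y = c • y) (g : G) :
    cnt x (c • y) g = cnt x y g := by
  unfold cnt
  refine Finset.card_bijective (fun h => h * k) (Group.mulRight_bijective k) (fun h => ?_)
  simp only [Finset.mem_filter, Finset.mem_univ, true_and]
  have h1 : ((h * k)⁻¹ * g * (h * k)) • x = k⁻¹ • ((h⁻¹ * g * h) • x) := by
    have h2 : (h * k)⁻¹ * g * (h * k) = k⁻¹ * ((h⁻¹ * g * h) * k) := by group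
    rw [h2, mul_smul, mul_smul, hk]
  rw [h1, inv_smul_eq_iff, hy]

variable {A : Type} [Group A] {r : A → X → X}

section

variable (hr1 : ∀ x, r 1 x = x) (hrm : ∀ a b x, r (a * b) x = r a (r b x))
  (hrg : ∀ (g : G) a x, g • r a x = r a (g • x))

include hr1 hrm in
lemma r_inj {a : A} {x y : X} (h : r a x = r a y) : x = y := by
  have h1 := congrArg (r a⁻¹) h
  rwa [← hrm, ← hrm, inv_mul_cancel, hr1, hr1] at h1

include hr1 hrm hrg in
lemma cnt_conj [MulAction.IsPretransitive G X] (x : X) (a b : A) (g : G) :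
    cnt x (r (b * a * b⁻¹) x) g = cnt x (r a x) g := by
  obtain ⟨k, hk⟩ := MulAction.exists_smul_eq G x (r b x)
  unfold cnt
  refine (Finset.card_bijective (fun h => h * k) (Group.mulRight_bijective k) (fun h => ?_)).symm
  simp only [Finset.mem_filter, Finset.mem_univ, true_and]
  have h3 : k • r (b * a * b⁻¹) x = r b (r a x) := by
    rw [hrg, hk, ← hrm, ← hrm]
    congr 1
    group
  have h4 : ((h * k)⁻¹ * g * (h * k)) • x = k⁻¹ • r b ((h⁻¹ * g * h) • x) := by
    have h2 : (h * k)⁻¹ * g * (h * k) = k⁻¹ * ((h⁻¹ * g * h) * k) := by group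
    rw [h2, mul_smul k⁻¹, mul_smul (h⁻¹ * g * h) k, hk, hrg]
  rw [h4, inv_smul_eq_iff, h3]
  exact ⟨fun h => by rw [h], fun h => r_inj hr1 hrm h⟩

include hr1 hrm hrg in
lemma cnt_isConj [MulAction.IsPretransitive G X] (x : X) {a a' : A} (h : IsConj a a') (g : G) :
    cnt x (r a x) g = cnt x (r a' x) g := by
  obtain ⟨b, rfl⟩ := isConj_iff.mp h
  exact (cnt_conj hr1 hrm hrg x a b g).symm

omit [Fintype G] in
include hr1 hrm hrg in
lemma pow_smul_eq {x : X} {a : A} {u : G} (h : u • x = r a x) (n : ℕ) :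
    u ^ n • x = r (a ^ n) x := by
  induction n with
  | zero => rw [pow_zero, pow_zero, one_smul, hr1]
  | succ n ih => rw [pow_succ', mul_smul, ih, hrg, h, ← hrm, ← pow_succ]

include hr1 hrm hrg in
lemma cnt_le (x : X) (a : A) (g : G) (j : ℕ) :
    cnt x (r a x) g ≤ cnt x (r (a ^ j) x) (g ^ j) := by
  unfold cnt
  refine Finset.card_le_card (fun h hh => ?_)
  simp only [Finset.mem_filter, Finset.mem_univ, true_and] at hh ⊢
  have h1 := pow_smul_eq hr1 hrm hrg hh j
  have h2 : (h⁻¹ * g * h) ^ j = h⁻¹ * g ^ j * h := by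
    have := conj_pow (i := j) (a := h⁻¹) (b := g)
    rw [inv_inv] at this
    exact this
  rwa [h2] at h1

include hr1 hrm hrg in
lemma cnt_pow [Fintype A] (x : X) (a : A) (g : G) {j : ℕ} (hj : j.Coprime (Nat.card (G × A))) :
    cnt x (r (a ^ j) x) (g ^ j) = cnt x (r a x) g := by
  refine le_antisymm ?_ (cnt_le hr1 hrm hrg x a g j)
  obtain ⟨i, hi⟩ : ∃ i : ℕ, ((g, a) ^ j) ^ i = (g, a) := by
    have h1 := zpowers_pow hj ((g, a) : G × A)
    have h2 : (g, a) ∈ Subgroup.zpowers ((g, a) ^ j) := by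
      rw [h1]
      exact Subgroup.mem_zpowers _
    rw [← mem_powers_iff_mem_zpowers, Submonoid.mem_powers_iff] at h2
    exact h2
  have h1 := cnt_le hr1 hrm hrg x (a ^ j) (g ^ j) i
  have h2 : (g ^ j) ^ i = g := congrArg Prod.fst hi
  have h3 : (a ^ j) ^ i = a := congrArg Prod.snd hi
  rwa [h2, h3] at h1

variable {c : G} (hc : ∀ g, c * g = g * c) (hc2 : c * c = 1) (hc1 : c ≠ 1)
  {z : A} (hz : ∀ a, z * a = a * z) (hz2 : z * z = 1) (hzc : ∀ x, r z x = c • x)

include hc in
lemma cnt_c (x y : X) (hc2 : c * c = 1) (g : G) : cnt x y (c * g) = cnt x (c • y) g := by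
  unfold cnt
  congr 1
  ext h
  simp only [Finset.mem_filter, Finset.mem_univ, true_and]
  have h1 : h⁻¹ * (c * g) * h = c * (h⁻¹ * g * h) := by
    rw [← mul_assoc h⁻¹ c g, ← hc h⁻¹]
    simp only [mul_assoc]
  rw [h1, mul_smul]
  constructor
  · intro e
    rw [← e, ← mul_smul, hc2, one_smul]
  · intro e
    rw [e, ← mul_smul, hc2, one_smul]

/-- The condition on the group `A`: each element `a` is conjugate to `z a` or to all generators of the
group generated by `a`. -/
def Rat (A : Type) [Group A] (z : A) : Prop :=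
  ∀ a : A, IsConj (z * a) a ∨ ∀ a' : A, Subgroup.zpowers a' = Subgroup.zpowers a → IsConj a' a

include hr1 hrm hrg hc hc2 hc1 hz hz2 hzc in
lemma diff_pow [Fintype A] [MulAction.IsPretransitive G X] (hR : Rat A z) (x : X) (a : A) (g : G)
    {j : ℕ} (hj : j.Coprime (Nat.card (G × A))) :
    (cnt x (r a x) (g ^ j) : ℤ) - cnt x (c • r a x) (g ^ j) =
      cnt x (r a x) g - cnt x (c • r a x) g := by
  have hca : ∀ a : A, c • r a x = r (z * a) x := fun a => by rw [← hzc, ← hrm]
  rw [hca]
  rcases hR a with h | h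
  · rw [cnt_isConj hr1 hrm hrg x h, cnt_isConj hr1 hrm hrg x h, sub_self, sub_self]
  · have h1 : Subgroup.zpowers (a ^ j) = Subgroup.zpowers a := by
      refine zpowers_pow (Nat.Coprime.coprime_dvd_right ?_ hj) a
      rw [Nat.card_prod]
      exact Dvd.intro_left _ rfl
    have h2 : IsConj (a ^ j) a := h _ h1
    have h3 : IsConj (z * a ^ j) (z * a) := by
      obtain ⟨b, hb⟩ := isConj_iff.mp h2
      refine isConj_iff.mpr ⟨b, ?_⟩
      calc b * (z * a ^ j) * b⁻¹ = z * (b * a ^ j * b⁻¹) := by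
            rw [← mul_assoc b z, ← hz b]
            simp only [mul_assoc]
        _ = z * a := by rw [hb]
    have hjG : j.Coprime (Nat.card G) := by
      refine Nat.Coprime.coprime_dvd_right ?_ hj
      rw [Nat.card_prod]
      exact Dvd.intro _ rfl
    have hodd : Odd j := by
      have heven : 2 ∣ Nat.card G := by
        have h1 : orderOf c = 2 := by
          rw [orderOf_eq_prime_iff]
          exact ⟨by rw [pow_two, hc2], hc1⟩
        rw [← h1]
        exact orderOf_dvd_natCard c
      rw [← Nat.not_even_iff_odd, even_iff_two_dvd]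
      intro h
      have := Nat.dvd_gcd h heven
      rw [hjG] at this
      exact absurd this (by norm_num)
    have h4 : (z * a) ^ j = z * a ^ j := by
      rw [(show Commute z a from hz a).mul_pow]
      congr 1
      obtain ⟨t, ht⟩ := hodd
      rw [ht, pow_add, pow_mul, pow_two, hz2, one_pow, one_mul, pow_one]
    have e1 := cnt_pow hr1 hrm hrg x a g hj
    have e2 := cnt_pow hr1 hrm hrg x (z * a) g hj
    rw [cnt_isConj hr1 hrm hrg x h2] at e1
    rw [h4, cnt_isConj hr1 hrm hrg x h3] at e2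
    rw [e1, e2]

omit [Group A] in
/-- the class function in terms of the numbers `cnt`. -/
lemma a0_cnt (x : X) (Φ : Finset X) (g : G) :
    (a0 x Φ g : ℚ) = (∑ y ∈ Φ, (cnt x y g : ℚ)) / Fintype.card G := by
  unfold a0 cnt
  congr 1
  rw [← Nat.cast_sum]
  congr 1
  rw [Finset.card_eq_sum_card_fiberwise (f := fun h : G => (h⁻¹ * g * h) • x) (t := Φ)]
  · refine Finset.sum_congr rfl (fun y hy => ?_)
    congr 1
    ext h
    simp only [Finset.mem_filter, Finset.mem_univ, true_and]
    exact ⟨fun h => h.2, fun h => ⟨h ▸ hy, h⟩⟩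
  · intro h hh
    simpa using hh

include hr1 hrm hrg hc hc2 hc1 hz hz2 hzc in
/-- **The class function of a CM type whose embeddings are unlinked or related by an automorphism.** -/
theorem zinv_a0 [Fintype A] [MulAction.IsPretransitive G X] (hR : Rat A z) (x : X) {Φ : Finset X}
    (hΦ : IsHalf c Φ)
    (hlink : ∀ y : X, (∃ k : G, k • x = x ∧ k • y = c • y) ∨ ∃ a : A, y = r a x) :
    ZInv (a0 x Φ : G → ℚ) := by
  intro g g' hgg
  have key : ∀ g : G, a0 x Φ g - a0 x Φ (c * g) =
      ((∑ y ∈ Φ, ((cnt x y g : ℤ) - cnt x (c • y) g) : ℤ) : ℚ) / Fintype.card G := by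
    intro g
    rw [a0_cnt, a0_cnt, ← sub_div, ← Finset.sum_sub_distrib]
    congr 1
    push_cast
    refine Finset.sum_congr rfl (fun y _ => ?_)
    rw [cnt_c hc x y hc2]
  have hdiff : a0 x Φ g - a0 x Φ (c * g) = a0 x Φ g' - a0 x Φ (c * g') := by
    rw [key, key]
    congr 2
    refine Finset.sum_congr rfl (fun y _ => ?_)
    rcases hlink y with ⟨k, hk1, hk2⟩ | ⟨a, rfl⟩
    · rw [cnt_unlinked hk1 hk2, cnt_unlinked hk1 hk2, sub_self, sub_self]
    · have h1 : Subgroup.zpowers ((g, 1) : G × A) = Subgroup.zpowers ((g', 1) : G × A) := by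
        have h2 : ∀ g : G, Subgroup.zpowers ((g, 1) : G × A) =
            (Subgroup.zpowers g).map (MonoidHom.inl G A) := by
          intro g
          rw [MonoidHom.map_zpowers]
          rfl
        rw [h2, h2, hgg]
      obtain ⟨u, hu⟩ := exists_unit h1
      have h3 : g' = g ^ (u : ZMod (Nat.card (G × A))).val := congrArg Prod.fst hu
      rw [h3]
      exact (diff_pow hr1 hrm hrg hc hc2 hc1 hz hz2 hzc hR x a g
        (ZMod.val_coe_unit_coprime u)).symm
  have h1 := a0_add hc x hΦ g
  have h2 := a0_add hc x hΦ g'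
  linarith

end

end Pool.Agent.N770.CP
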