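import Pool.Agent.N770.CP.Core

/-!
# The sum of Colmez's class functions over a CM type: the group theory
-/

set_option autoImplicit false

open scoped Classical

namespace Pool.Agent.N770.CP

open Pool.Agent.Q11.CZ

variable {G : Type} [Group G] [Fintype G] {X : Type} [MulAction G X]
variable {A : Type} [Group A] {r : A → X → X}

/-- The condition on the group `A` for the sums over a CM type: each element `a` is conjugate to `z a`
or `(z a)⁻¹`, or all generators of the group generated by `a` are conjugate to `a` or `a⁻¹`. -/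
def RatInv (A : Type) [Group A] (z : A) : Prop :=
  ∀ a : A, (IsConj (z * a) a ∨ IsConj (z * a) a⁻¹) ∨
    ∀ a' : A, Subgroup.zpowers a' = Subgroup.zpowers a → IsConj a' a ∨ IsConj a' a⁻¹

lemma isConj_inv {a b : A} (h : IsConj a b) : IsConj a⁻¹ b⁻¹ := by
  obtain ⟨k, rfl⟩ := isConj_iff.mp h
  refine isConj_iff.mpr ⟨k, ?_⟩
  group

section

variable (hr1 : ∀ x, r 1 x = x) (hrm : ∀ a b x, r (a * b) x = r a (r b x))
  (hrg : ∀ (g : G) a x, g • r a x = r a (g • x))
variable {c : G} (hc : ∀ g, c * g = g * c) (hc2 : c * c = 1) (hc1 : c ≠ 1)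
  {z : A} (hz : ∀ a, z * a = a * z) (hz2 : z * z = 1) (hzc : ∀ x, r z x = c • x)

include hrg in
lemma cnt_base [MulAction.IsPretransitive G X] (x y : X) (a : A) (g : G) :
    cnt x (r a x) g = cnt y (r a y) g := by
  obtain ⟨k, rfl⟩ := MulAction.exists_smul_eq G x y
  unfold cnt
  refine (Finset.card_bijective (fun h => h * k) (Group.mulRight_bijective k) (fun h => ?_)).symm
  simp only [Finset.mem_filter, Finset.mem_univ, true_and]
  have h4 : ((h * k)⁻¹ * g * (h * k)) • x = k⁻¹ • ((h⁻¹ * g * h) • (k • x)) := by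
    have h2 : (h * k)⁻¹ * g * (h * k) = k⁻¹ * ((h⁻¹ * g * h) * k) := by group
    rw [h2, mul_smul k⁻¹, mul_smul (h⁻¹ * g * h) k]
  rw [h4, inv_smul_eq_iff, hrg]

/-- the difference of two numbers of conjugates. -/
noncomputable def dd (r : A → X → X) (z : A) (x : X) (a : A) (g : G) : ℤ :=
  (cnt x (r a x) g : ℤ) - cnt x (r (z * a) x) g

include hrg in
lemma dd_base [MulAction.IsPretransitive G X] (x y : X) (a : A) (g : G) :
    dd r z x a g = dd r z y a g := by
  unfold dd
  rw [cnt_base hrg x y, cnt_base hrg x y]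

include hr1 hrm hrg in
lemma dd_isConj [MulAction.IsPretransitive G X] (hz : ∀ a, z * a = a * z) (x : X) {a a' : A}
    (h : IsConj a a') (g : G) : dd r z x a g = dd r z x a' g := by
  have h3 : IsConj (z * a) (z * a') := by
    obtain ⟨b, hb⟩ := isConj_iff.mp h
    refine isConj_iff.mpr ⟨b, ?_⟩
    calc b * (z * a) * b⁻¹ = z * (b * a * b⁻¹) := by
          rw [← mul_assoc b z, ← hz b]
          simp only [mul_assoc]
      _ = z * a' := by rw [hb]
  unfold dd
  rw [cnt_isConj hr1 hrm hrg x h, cnt_isConj hr1 hrm hrg x h3]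

include hr1 hrm hrg hc2 hc1 hz hz2 in
lemma dd_pow [Fintype A] (x : X) (a : A) (g : G) {j : ℕ} (hj : j.Coprime (Nat.card (G × A))) :
    dd r z x (a ^ j) (g ^ j) = dd r z x a g := by
  have hjG : j.Coprime (Nat.card G) := by
    refine Nat.Coprime.coprime_dvd_right ?_ hj
    rw [Nat.card_prod]
    exact Dvd.intro _ rfl
  have hodd : Odd j := by
    have heven : 2 ∣ Nat.card G := by
      have h1 : orderOf c = 2 := by
        rw [orderOf_eq_prime_iff]
        exact ⟨by rw [pow_two, hc2], hc1⟩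
      rw [← h1]
      exact orderOf_dvd_natCard c
    rw [← Nat.not_even_iff_odd, even_iff_two_dvd]
    intro h
    have := Nat.dvd_gcd h heven
    rw [hjG] at this
    exact absurd this (by norm_num)
  have h4 : (z * a) ^ j = z * a ^ j := by
    rw [(show Commute z a from hz a).mul_pow]
    congr 1
    obtain ⟨t, ht⟩ := hodd
    rw [ht, pow_add, pow_mul, pow_two, hz2, one_pow, one_mul, pow_one]
  unfold dd
  rw [cnt_pow hr1 hrm hrg x a g hj, ← h4, cnt_pow hr1 hrm hrg x (z * a) g hj]

include hr1 hrm hrg hc2 hc1 hz hz2 in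
lemma dd_sum_pow [Fintype A] [MulAction.IsPretransitive G X] (hR : RatInv A z) (x : X) (a : A)
    (g : G) {j : ℕ} (hj : j.Coprime (Nat.card (G × A))) :
    dd r z x a (g ^ j) + dd r z x a⁻¹ (g ^ j) = dd r z x a g + dd r z x a⁻¹ g := by
  have hzi : z⁻¹ = z := by
    rw [inv_eq_iff_mul_eq_one, hz2]
  have hinv : (z * a)⁻¹ = z * a⁻¹ := by
    rw [mul_inv_rev, hzi, hz]
  rcases hR a with (h | h) | h
  · have h2 : IsConj (z * a⁻¹) a⁻¹ := by
      rw [← hinv]
      exact isConj_inv h
    have e1 : ∀ g, dd r z x a g = 0 := fun g => by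
      unfold dd
      rw [cnt_isConj hr1 hrm hrg x h, sub_self]
    have e2 : ∀ g, dd r z x a⁻¹ g = 0 := fun g => by
      unfold dd
      rw [cnt_isConj hr1 hrm hrg x h2, sub_self]
    rw [e1, e1, e2, e2]
  · have h2 : IsConj (z * a⁻¹) a := by
      rw [← hinv]
      have := isConj_inv h
      rwa [inv_inv] at this
    have e1 : ∀ g, dd r z x a g + dd r z x a⁻¹ g = 0 := fun g => by
      unfold dd
      rw [cnt_isConj hr1 hrm hrg x h, cnt_isConj hr1 hrm hrg x h2]
      ring
    rw [e1, e1]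
  · have h1 : Subgroup.zpowers (a ^ j) = Subgroup.zpowers a := by
      refine zpowers_pow (Nat.Coprime.coprime_dvd_right ?_ hj) a
      rw [Nat.card_prod]
      exact Dvd.intro_left _ rfl
    have e1 := dd_pow hr1 hrm hrg hc2 hc1 hz hz2 x a g hj
    have e2 := dd_pow hr1 hrm hrg hc2 hc1 hz hz2 x a⁻¹ g hj
    rw [inv_pow] at e2
    rcases h _ h1 with h3 | h3
    · rw [dd_isConj hr1 hrm hrg hz x h3] at e1
      rw [dd_isConj hr1 hrm hrg hz x (isConj_inv h3)] at e2
      rw [e1, e2]
    · rw [dd_isConj hr1 hrm hrg hz x h3] at e1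
      have h4 := isConj_inv h3
      rw [inv_inv] at h4
      rw [dd_isConj hr1 hrm hrg hz x h4] at e2
      rw [e1, e2, add_comm]

include hr1 hrm hrg hc hc2 hc1 hz hz2 hzc in
/-- **The sum of the class functions over the elements of a CM type.** -/
theorem zinv_T [Fintype A] [MulAction.IsPretransitive G X] (hR : RatInv A z) {Φ : Finset X}
    (hΦ : IsHalf c Φ)
    (hlink : ∀ x y : X, (∃ k : G, k • x = x ∧ k • y = c • y) ∨ ∃ a : A, y = r a x) :
    ZInv (T Φ : G → ℚ) := by
  intro g g' hgg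
  have hfree : ∀ x : X, c • x ≠ x := by
    intro x hx
    have := hΦ x
    rw [hx] at this
    tauto
  -- the differences
  set δ : X → X → G → ℤ := fun x y g => (cnt x y g : ℤ) - cnt x (c • y) g with hδ
  have key : ∀ g : G, T Φ g - T Φ (c * g) =
      ((∑ x ∈ Φ, ∑ y ∈ Φ, δ x y g : ℤ) : ℚ) / Fintype.card G := by
    intro g
    unfold T
    rw [← Finset.sum_sub_distrib, Int.cast_sum, Finset.sum_div]
    refine Finset.sum_congr rfl (fun x _ => ?_)
    rw [a0_cnt, a0_cnt, ← sub_div, ← Finset.sum_sub_distrib]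
    congr 1
    rw [hδ]
    push_cast
    refine Finset.sum_congr rfl (fun y _ => ?_)
    rw [cnt_c hc x y hc2]
  have hun : ∀ x y : X, (∃ k : G, k • x = x ∧ k • y = c • y) → ∀ g, δ x y g = 0 := by
    rintro x y ⟨k, h1, h2⟩ g
    rw [hδ]
    simp only
    rw [cnt_unlinked h1 h2, sub_self]
  have hli : ∀ (x : X) (a : A) (g : G), δ x (r a x) g = dd r z x a g := by
    intro x a g
    rw [hδ]
    simp only
    unfold dd
    rw [← hzc, ← hrm]
  obtain ⟨j, hj, hgj⟩ : ∃ j : ℕ, j.Coprime (Nat.card (G × A)) ∧ g' = g ^ j := by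
    have h1 : Subgroup.zpowers ((g, 1) : G × A) = Subgroup.zpowers ((g', 1) : G × A) := by
      have h2 : ∀ g : G, Subgroup.zpowers ((g, 1) : G × A) =
          (Subgroup.zpowers g).map (MonoidHom.inl G A) := by
        intro g
        rw [MonoidHom.map_zpowers]
        rfl
      rw [h2, h2, hgg]
    obtain ⟨u, hu⟩ := exists_unit h1
    exact ⟨_, ZMod.val_coe_unit_coprime u, congrArg Prod.fst hu⟩
  have hpair : ∀ x y : X, δ x y g + δ y x g = δ x y g' + δ y x g' := by
    intro x y
    rcases hlink x y with h1 | ⟨a, ha⟩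
    · have h2 : ∃ k : G, k • y = y ∧ k • x = c • x := by
        rcases hlink y x with h2 | ⟨a, ha⟩
        · exact h2
        · exfalso
          obtain ⟨k, hk1, hk2⟩ := h1
          have h3 : r a y = r a (c • y) := by
            rw [← hk2, ← hrg, ← ha, hk1]
          exact hfree y (r_inj hr1 hrm h3).symm
      rw [hun x y h1, hun x y h1, hun y x h2, hun y x h2]
    · have hx : x = r a⁻¹ y := by
        rw [ha, ← hrm, inv_mul_cancel, hr1]
      have e1 : ∀ g, δ x y g = dd r z x a g := fun g => by rw [ha]; exact hli x a g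
      have e2 : ∀ g, δ y x g = dd r z x a⁻¹ g := fun g => by
        have h5 := hli y a⁻¹ g
        rw [← hx] at h5
        rw [h5]
        exact dd_base hrg y x a⁻¹ g
      rw [e1, e1, e2, e2, hgj]
      exact (dd_sum_pow hr1 hrm hrg hc2 hc1 hz hz2 hR x a g hj).symm
  have hsum : ∑ x ∈ Φ, ∑ y ∈ Φ, δ x y g = ∑ x ∈ Φ, ∑ y ∈ Φ, δ x y g' := by
    have h2 : ∀ g : G, 2 * ∑ x ∈ Φ, ∑ y ∈ Φ, δ x y g =
        ∑ x ∈ Φ, ∑ y ∈ Φ, (δ x y g + δ y x g) := by
      intro g
      rw [two_mul]
      conv_lhs => rhs; rw [Finset.sum_comm]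
      rw [← Finset.sum_add_distrib]
      exact Finset.sum_congr rfl (fun x _ => Finset.sum_add_distrib.symm)
    have h3 : (2 : ℤ) * ∑ x ∈ Φ, ∑ y ∈ Φ, δ x y g = 2 * ∑ x ∈ Φ, ∑ y ∈ Φ, δ x y g' := by
      rw [h2, h2]
      exact Finset.sum_congr rfl (fun x _ => Finset.sum_congr rfl (fun y _ => hpair x y))
    linarith
  have hdiff : T Φ g - T Φ (c * g) = T Φ g' - T Φ (c * g') := by
    rw [key, key, hsum]
  have h1 := T_add hc hΦ g
  have h2 := T_add hc hΦ g'
  linarith

end

end Pool.Agent.N770.CP
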