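import Pool.Agent.N770.CP.Span

/-!
# The criteria: functions of CM types and the odd irreducible characters
-/

set_option autoImplicit false

open scoped Classical

namespace Pool.Agent.N770.CP

open Pool.Agent.Q11.CZ

variable {G : Type} [Group G] [Fintype G] {X : Type} [MulAction G X]

/-- the complex-valued function. -/
noncomputable def toC (f : G → ℚ) : G → ℂ := fun g => (f g : ℂ)

/-- functions which are constant on the generators of cyclic groups. -/
def Zc (G : Type) [Group G] : Submodule ℂ (G → ℂ) where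
  carrier := {f | ∀ g g' : G, Subgroup.zpowers g = Subgroup.zpowers g' → f g = f g'}
  add_mem' := by
    intro a b ha hb g g' h
    change a g + b g = a g' + b g'
    rw [ha g g' h, hb g g' h]
  zero_mem' := by
    intro g g' _
    rfl
  smul_mem' := by
    intro r a ha g g' h
    change r * a g = r * a g'
    rw [ha g g' h]

/-- the symmetrisation. -/
def symm (G : Type) [Group G] : (G → ℂ) →ₗ[ℂ] (G → ℂ) where
  toFun f := fun g => f g + f g⁻¹
  map_add' a b := by
    funext g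
    change a g + b g + (a g⁻¹ + b g⁻¹) = a g + a g⁻¹ + (b g + b g⁻¹)
    ring
  map_smul' r a := by
    funext g
    change r * a g + r * a g⁻¹ = r * (a g + a g⁻¹)
    ring

lemma symm_Zc {f : G → ℂ} (hf : f ∈ Zc G) : symm G f ∈ Zc G := by
  intro g g' h
  change f g + f g⁻¹ = f g' + f g'⁻¹
  rw [hf g g' h, hf g⁻¹ g'⁻¹ (by rw [Subgroup.zpowers_inv, Subgroup.zpowers_inv, h])]

variable {c : G} (hc : ∀ g, c * g = g * c) (hc2 : c * c = 1)

lemma cardF_ne : (Fintype.card G : ℂ) ≠ 0 := by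
  exact_mod_cast Fintype.card_ne_zero

include hc2 in
lemma half_with [Fintype X] (hcf : ∀ x : X, c • x ≠ x) (y : X) :
    ∃ Φ : Finset X, IsHalf c Φ ∧ y ∈ Φ := by
  obtain ⟨Φ₀, hΦ₀⟩ := exists_half (X := X) hc2 hcf
  rw [mem_halves] at hΦ₀
  by_cases hy : y ∈ Φ₀
  · exact ⟨Φ₀, hΦ₀, hy⟩
  · refine ⟨_, isHalf_toggle hc2 hΦ₀ y, ?_⟩
    rw [Finset.mem_symmDiff]
    right
    exact ⟨Finset.mem_insert_self _ _, hy⟩

include hc hc2 in
lemma toC_a0 (x : X) {Φ : Finset X} (hΦ : IsHalf c Φ) :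
    toC (a0 x Φ : G → ℚ) = (1 / 2 : ℂ) • (fun _ => (1 : ℂ)) +
      (1 / (2 * Fintype.card G) : ℂ) • ∑ y ∈ Φ, del c x y := by
  funext g
  have h1 : a0 x Φ g + a0 x Φ (c * g) = 1 := a0_add hc x hΦ g
  have h2 : a0 x Φ g - a0 x Φ (c * g) =
      (∑ y ∈ Φ, ((cnt x y g : ℚ) - cnt x (c • y) g)) / Fintype.card G := by
    rw [a0_cnt, a0_cnt, ← sub_div, ← Finset.sum_sub_distrib]
    congr 1
    refine Finset.sum_congr rfl (fun y _ => ?_)
    rw [cnt_c hc x y hc2]
  have h3 : (a0 x Φ g : ℚ) = 1 / 2 + (1 / (2 * Fintype.card G)) *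
      ∑ y ∈ Φ, ((cnt x y g : ℚ) - cnt x (c • y) g) := by
    have h4 : (a0 x Φ g : ℚ) = ((a0 x Φ g + a0 x Φ (c * g)) + (a0 x Φ g - a0 x Φ (c * g))) / 2 := by
      ring
    rw [h4, h1, h2]
    have := card_ne (G := G)
    field_simp
  unfold toC
  rw [h3]
  simp only [Pi.add_apply, Pi.smul_apply, Finset.sum_apply, smul_eq_mul]
  unfold del
  push_cast
  ring

include hc hc2 in
/-- **The criterion for the functions `a0`.** -/
theorem crit_a0 [Fintype X] (hcf : ∀ x : X, c • x ≠ x) (x : X) (M : Submodule ℂ (G → ℂ))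
    (h1 : (fun _ => (1 : ℂ)) ∈ M) :
    (∀ Φ : Finset X, IsHalf c Φ → toC (a0 x Φ : G → ℚ) ∈ M) ↔
      ∀ χ : G → ℂ, Good c x χ → χ ∈ M := by
  constructor
  · intro hall χ hχ
    refine good_mem hc hc2 x M (fun y => ?_) hχ
    obtain ⟨Φ, hΦ, hy⟩ := half_with hc2 hcf y
    have hcy : c • y ∉ Φ := fun h => (hΦ y).mp h hy
    have e2 : c • y ∉ Φ.erase y := fun h => hcy (Finset.mem_of_mem_erase h)
    have key : toC (a0 x Φ : G → ℚ) - toC (a0 x (insert (c • y) (Φ.erase y)) : G → ℚ) =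
        (1 / Fintype.card G : ℂ) • del c x y := by
      funext g
      simp only [Pi.sub_apply, Pi.smul_apply, smul_eq_mul]
      unfold toC del
      rw [a0_cnt, a0_cnt, Finset.sum_insert e2, ← Finset.add_sum_erase Φ _ hy]
      push_cast
      ring
    have h2 := Submodule.sub_mem _ (hall Φ hΦ) (hall _ (isHalf_replace hc2 hΦ hy))
    rw [key] at h2
    exact (Submodule.smul_mem_iff _ (one_div_ne_zero cardF_ne)).mp h2
  · intro hall Φ hΦ
    rw [toC_a0 hc hc2 x hΦ]
    exact Submodule.add_mem _ (Submodule.smul_mem _ _ h1) (Submodule.smul_mem _ _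
      (Submodule.sum_mem _ (fun y _ => del_mem hc hc2 x M hall y)))

lemma cnt_smul (x y : X) (k g : G) : cnt (k • x) (k • y) g = cnt x y g := by
  unfold cnt
  refine Finset.card_bijective (fun h => h * k) (Group.mulRight_bijective k) (fun h => ?_)
  simp only [Finset.mem_filter, Finset.mem_univ, true_and]
  have h1 : (h * k)⁻¹ * g * (h * k) = k⁻¹ * ((h⁻¹ * g * h) * k) := by group
  rw [h1, mul_smul k⁻¹, mul_smul (h⁻¹ * g * h) k, inv_smul_eq_iff]

lemma cnt_inv (x y : X) (g : G) : cnt y x g = cnt x y g⁻¹ := by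
  unfold cnt
  congr 1
  ext h
  simp only [Finset.mem_filter, Finset.mem_univ, true_and]
  have h1 : h⁻¹ * g⁻¹ * h = (h⁻¹ * g * h)⁻¹ := by group
  rw [h1, inv_smul_eq_iff]
  exact eq_comm

include hc in
lemma del_smul (x y : X) (k : G) : del c (k • x) (k • y) = del c x y := by
  funext g
  unfold del
  rw [← mul_smul, hc, mul_smul, cnt_smul, cnt_smul]

include hc hc2 in
lemma del_inv (x y : X) (g : G) : del c y x g = del c x y g⁻¹ := by
  unfold del
  have h1 : cnt y (c • x) g = cnt x (c • y) g⁻¹ := by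
    rw [cnt_inv (c • x) y g]
    have h2 := cnt_cc hc x (c • y) g⁻¹
    rwa [← mul_smul, hc2, one_smul] at h2
  rw [h1, cnt_inv x y g]

include hc hc2 in
lemma symm_del (x y : X) : symm G (del c x y) = del c x y + del c y x := by
  funext g
  change del c x y g + del c x y g⁻¹ = del c x y g + del c y x g
  rw [del_inv hc hc2 x y g]

include hc hc2 in
lemma del_self (hcf : ∀ x : X, c • x ≠ x) (x : X) : del c x x ∈ Zc G := by
  intro g g' hgg
  have hc1 : c ≠ 1 := fun h => hcf x (by rw [h, one_smul])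
  let A := Subgroup.center G
  have hcA : c ∈ Subgroup.center G := Subgroup.mem_center_iff.mpr fun g => (hc g).symm
  let r : A → X → X := fun a x => (a : G) • x
  let z : A := ⟨c, hcA⟩
  obtain ⟨j, hj, hgj⟩ : ∃ j : ℕ, j.Coprime (Nat.card (G × A)) ∧ g' = g ^ j := by
    have h1 : Subgroup.zpowers ((g, 1) : G × A) = Subgroup.zpowers ((g', 1) : G × A) := by
      have h2 : ∀ g : G, Subgroup.zpowers ((g, 1) : G × A) =
          (Subgroup.zpowers g).map (MonoidHom.inl G A) := by
        intro g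
        rw [MonoidHom.map_zpowers]
        rfl
      rw [h2, h2, hgg]
    obtain ⟨u, hu⟩ := exists_unit h1
    exact ⟨_, ZMod.val_coe_unit_coprime u, congrArg Prod.fst hu⟩
  have h1 := dd_pow (r := r) (z := z) (fun x => one_smul G x)
    (fun a b x => mul_smul (a : G) (b : G) x)
    (fun g a x => by
      change g • (a : G) • x = (a : G) • g • x
      rw [← mul_smul, ← mul_smul, Subgroup.mem_center_iff.mp a.2 g]) hc2 hc1
    (fun a => Subtype.ext (hc a)) (Subtype.ext hc2) x 1 g hj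
  rw [one_pow, ← hgj] at h1
  have h2 : ∀ g : G, del c x x g = (dd r z x 1 g : ℂ) := by
    intro g
    unfold del dd
    have e1 : r 1 x = x := one_smul G x
    have e2 : r (z * 1) x = c • x := by rw [mul_one]
    rw [e1, e2]
    push_cast
    rfl
  rw [h2, h2, h1]

include hc hc2 in
lemma toC_T {Φ : Finset X} (hΦ : IsHalf c Φ) :
    toC (T Φ : G → ℚ) = (Φ.card / 2 : ℂ) • (fun _ => (1 : ℂ)) +
      (1 / (4 * Fintype.card G) : ℂ) • ∑ x ∈ Φ, ∑ y ∈ Φ, symm G (del c x y) := by
  have h1 : toC (T Φ : G → ℚ) = ∑ x ∈ Φ, toC (a0 x Φ : G → ℚ) := by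
    funext g
    rw [Finset.sum_apply]
    unfold toC T
    push_cast
    rfl
  have h2 : ∑ x ∈ Φ, ∑ y ∈ Φ, symm G (del c x y) =
      (2 : ℂ) • ∑ x ∈ Φ, ∑ y ∈ Φ, del c x y := by
    simp only [symm_del hc hc2, Finset.sum_add_distrib]
    rw [Finset.sum_comm (f := fun x y => del c y x), two_smul]
  rw [h1, h2, Finset.sum_congr rfl (fun x _ => toC_a0 hc hc2 x hΦ), Finset.sum_add_distrib,
    Finset.sum_const, ← Finset.smul_sum]
  congr 1
  · rw [← Nat.cast_smul_eq_nsmul ℂ, smul_smul]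
    congr 1
    ring
  · rw [smul_smul]
    congr 1
    have := cardF_ne (G := G)
    field_simp
    norm_num

include hc hc2 in
/-- four half-systems. -/
lemma four_term [Fintype X] (hcf : ∀ x : X, c • x ≠ x) {x y : X} (hyx : y ≠ x)
    (hycx : y ≠ c • x) : ∃ Φ₀ Φ₁ Φ₂ Φ₃ : Finset X, IsHalf c Φ₀ ∧ IsHalf c Φ₁ ∧ IsHalf c Φ₂ ∧
      IsHalf c Φ₃ ∧ toC (T Φ₀ : G → ℚ) - toC (T Φ₁) - toC (T Φ₂) + toC (T Φ₃) =
        (2 / Fintype.card G : ℂ) • symm G (del c x y) := by
  have hcc : ∀ u : X, c • (c • u) = u := fun u => by rw [← mul_smul, hc2, one_smul]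
  have hxcy : x ≠ c • y := fun h => hycx (by rw [h, hcc])
  obtain ⟨Φ₁, hΦ₁, hx₁⟩ := half_with hc2 hcf x
  obtain ⟨Φ, hΦ, hx, hy⟩ : ∃ Φ : Finset X, IsHalf c Φ ∧ x ∈ Φ ∧ y ∈ Φ := by
    by_cases hy : y ∈ Φ₁
    · exact ⟨Φ₁, hΦ₁, hx₁, hy⟩
    · refine ⟨_, isHalf_toggle hc2 hΦ₁ y, ?_, ?_⟩
      · rw [Finset.mem_symmDiff]
        left
        refine ⟨hx₁, ?_⟩
        rw [Finset.mem_insert, Finset.mem_singleton]
        rintro (h | h)
        · exact hyx h.symm
        · exact hxcy h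
      · rw [Finset.mem_symmDiff]
        right
        exact ⟨Finset.mem_insert_self _ _, hy⟩
  set Ψ := (Φ.erase x).erase y with hΨ
  have hcx : c • x ∉ Φ := fun h => (hΦ x).mp h hx
  have hcy : c • y ∉ Φ := fun h => (hΦ y).mp h hy
  have hy' : y ∈ Φ.erase x := Finset.mem_erase.mpr ⟨hyx, hy⟩
  have hsub : ∀ u, u ∈ Ψ → u ∈ Φ := fun u hu =>
    Finset.mem_of_mem_erase (Finset.mem_of_mem_erase hu)
  have hxΨ : x ∉ Ψ := fun h => (Finset.notMem_erase x Φ) (Finset.mem_of_mem_erase h)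
  have hyΨ : y ∉ Ψ := Finset.notMem_erase y _
  have hcxΨ : c • x ∉ Ψ := fun h => hcx (hsub _ h)
  have hcyΨ : c • y ∉ Ψ := fun h => hcy (hsub _ h)
  have e0 : Φ = insert x (insert y Ψ) := by
    rw [hΨ, Finset.insert_erase hy', Finset.insert_erase hx]
  have i1 : IsHalf c (insert (c • x) (insert y Ψ)) := by
    have h := isHalf_replace hc2 hΦ hx
    rwa [show Φ.erase x = insert y Ψ by rw [hΨ, Finset.insert_erase hy']] at h
  have i2 : IsHalf c (insert x (insert (c • y) Ψ)) := by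
    have h := isHalf_replace hc2 hΦ hy
    have e1 : Φ.erase y = insert x Ψ := by
      rw [hΨ, Finset.erase_right_comm, Finset.insert_erase]
      exact Finset.mem_erase.mpr ⟨fun h => hyx h.symm, hx⟩
    rw [e1, Finset.insert_comm] at h
    exact h
  have i3 : IsHalf c (insert (c • x) (insert (c • y) Ψ)) := by
    have h := isHalf_replace hc2 i1 (y := y)
      (Finset.mem_insert_of_mem (Finset.mem_insert_self _ _))
    have e1 : (insert (c • x) (insert y Ψ)).erase y = insert (c • x) Ψ := by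
      rw [Finset.erase_insert_of_ne (fun h => hycx h.symm), Finset.erase_insert hyΨ]
    rw [e1, Finset.insert_comm] at h
    exact h
  have i0 : IsHalf c (insert x (insert y Ψ)) := by rwa [← e0]
  refine ⟨_, _, _, _, i0, i1, i2, i3, ?_⟩
  have hT : ∀ (Φ : Finset X) (g : G), (T Φ g : ℚ) =
      (∑ u ∈ Φ, ∑ v ∈ Φ, (cnt u v g : ℚ)) / Fintype.card G := by
    intro Φ g
    unfold T
    rw [Finset.sum_div]
    exact Finset.sum_congr rfl (fun u _ => a0_cnt u Φ g)
  have n1 : c • x ≠ y := fun h => hycx h.symm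
  have n2 : c • x ≠ c • y := fun h => hyx ((MulAction.injective c) h).symm
  funext g
  have key : T (insert x (insert y Ψ)) g - T (insert (c • x) (insert y Ψ)) g -
      T (insert x (insert (c • y) Ψ)) g + T (insert (c • x) (insert (c • y) Ψ)) g =
      2 * (((cnt x y g : ℚ) - cnt x (c • y) g) + (cnt y x g - cnt y (c • x) g)) /
        Fintype.card G := by
    simp only [hT]
    rw [sum_two hxΨ hyΨ (Ne.symm hyx), sum_two hcxΨ hyΨ n1, sum_two hxΨ hcyΨ hxcy,
      sum_two hcxΨ hcyΨ n2]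
    have q1 : cnt (c • x) (c • y) g = cnt x y g := cnt_cc hc x y g
    have q2 : cnt (c • y) (c • x) g = cnt y x g := cnt_cc hc y x g
    have q3 : cnt (c • x) y g = cnt x (c • y) g := by
      have := cnt_cc hc x (c • y) g
      rwa [hcc] at this
    have q4 : cnt (c • y) x g = cnt y (c • x) g := by
      have := cnt_cc hc y (c • x) g
      rwa [hcc] at this
    rw [q1, q2, q3, q4]
    field_simp
    ring
  have key2 := congrArg (fun q : ℚ => (q : ℂ)) key
  rw [symm_del hc hc2]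
  simp only [Pi.add_apply, Pi.sub_apply, Pi.smul_apply, smul_eq_mul]
  unfold toC del
  push_cast at key2
  rw [key2]
  ring

include hc hc2 in
/-- **The criterion for the sums `T`.** -/
theorem crit_T [Fintype X] [MulAction.IsPretransitive G X] (hcf : ∀ x : X, c • x ≠ x) (x₀ : X)
    (M : Submodule ℂ (G → ℂ)) (hZ : Zc G ≤ M) :
    (∀ Φ : Finset X, IsHalf c Φ → toC (T Φ : G → ℚ) ∈ M) ↔
      ∀ χ : G → ℂ, Good c x₀ χ → symm G χ ∈ M := by
  have h1 : (fun _ => (1 : ℂ)) ∈ M := hZ (fun _ _ _ => rfl)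
  constructor
  · intro hall χ hχ
    refine (Submodule.mem_comap.mp (good_mem hc hc2 x₀ (M.comap (symm G)) (fun y => ?_) hχ))
    rw [Submodule.mem_comap]
    by_cases hyx : y = x₀
    · rw [hyx]
      exact hZ (symm_Zc (del_self hc hc2 hcf x₀))
    by_cases hycx : y = c • x₀
    · have h2 : del c x₀ (c • x₀) = - del c x₀ x₀ := by
        funext g
        rw [Pi.neg_apply]
        unfold del
        rw [← mul_smul, hc2, one_smul]
        ring
      rw [hycx, h2, map_neg]
      exact Submodule.neg_mem _ (hZ (symm_Zc (del_self hc hc2 hcf x₀)))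
    obtain ⟨Φ₀, Φ₁, Φ₂, Φ₃, i0, i1, i2, i3, h2⟩ := four_term hc hc2 hcf hyx hycx
    have h3 := Submodule.add_mem _ (Submodule.sub_mem _ (Submodule.sub_mem _ (hall _ i0)
      (hall _ i1)) (hall _ i2)) (hall _ i3)
    rw [h2] at h3
    exact (Submodule.smul_mem_iff _ (div_ne_zero two_ne_zero cardF_ne)).mp h3
  · intro hall Φ hΦ
    have h2 : ∀ x y : X, symm G (del c x y) ∈ M := by
      intro x y
      obtain ⟨k, hk⟩ := MulAction.exists_smul_eq G x x₀
      rw [← del_smul hc x y k, hk]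
      exact Submodule.mem_comap.mp
        (del_mem hc hc2 x₀ (M.comap (symm G)) (fun χ hχ => Submodule.mem_comap.mpr (hall χ hχ)) _)
    rw [toC_T hc hc2 hΦ]
    exact Submodule.add_mem _ (Submodule.smul_mem _ _ h1) (Submodule.smul_mem _ _
      (Submodule.sum_mem _ (fun x _ => Submodule.sum_mem _ (fun y _ => h2 x y))))

end Pool.Agent.N770.CP
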