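import Pool.Agent.N770.CP.Core2
import Pool.Agent.Results.MP_a2beea_nt.AveragedAndAbelian

/-!
# Colmez's class functions of the CM types of a single CM field
-/

set_option autoImplicit false

open scoped Classical
open NumberField

namespace Pool.Agent.N770.CP

open Pool.Agent.Results.MP_a2beea_nt.AveragedAndAbelian

variable {E K : Type} [Field E] [NumberField E] [Field K] [NumberField K]

/-- The embedding `θ` is linked to `ψ`: `θ(E)` is contained in `ψ(E) θ(E⁺)`, where `E⁺` is the maximal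
real subfield of `E`. -/
def Linked (ψ θ : E →ₐ[ℚ] K) : Prop :=
  θ.fieldRange ≤ ψ.fieldRange ⊔ IntermediateField.adjoin ℚ (θ '' (maximalRealSubfield E : Set E))

lemma emb_conj' [IsCMField E] [IsCMField K] (ψ : E →ₐ[ℚ] K) (x : E) :
    ψ (conjugation E x) = conjugation K (ψ x) := by
  obtain ⟨φ⟩ : Nonempty (K →+* ℂ) := inferInstance
  apply φ.injective
  have h1 := Pool.Agent.Q11.CZ.emb_conj φ (ψ x)
  have h2 := Pool.Agent.Q11.CZ.emb_conj (φ.comp (ψ : E →+* K)) x
  exact h2.trans h1.symm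

lemma conj_fix_iff [IsCMField E] (x : E) :
    conjugation E x = x ↔ x ∈ maximalRealSubfield E :=
  IsCMField.complexConj_eq_self_iff E x

lemma conj_conj [IsCMField E] (x : E) : conjugation E (conjugation E x) = x :=
  IsCMField.complexConj_apply_apply E x

section galois

variable [IsGalois ℚ K] [IsCMField E] [IsCMField K]

lemma exists_of_not_linked {ψ θ : E →ₐ[ℚ] K} (h : ¬ Linked ψ θ) :
    ∃ k : K ≃ₐ[ℚ] K, act k ψ = ψ ∧ act k θ = act (conjugation K) θ := by
  unfold Linked at h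
  set L := ψ.fieldRange ⊔ IntermediateField.adjoin ℚ (θ '' (maximalRealSubfield E : Set E)) with hL
  obtain ⟨y, ⟨x0, hx0⟩, hyL⟩ := SetLike.not_le_iff_exists.mp h
  have hy : y ∉ IntermediateField.fixedField L.fixingSubgroup := by
    rw [IsGalois.fixedField_fixingSubgroup]
    exact hyL
  rw [IntermediateField.mem_fixedField_iff] at hy
  push Not at hy
  obtain ⟨k, hk, hky⟩ := hy
  rw [IntermediateField.mem_fixingSubgroup_iff] at hk
  have hfix : ∀ x : E, x ∈ maximalRealSubfield E → k (θ x) = θ x := fun x hx =>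
    hk _ ((le_sup_right : _ ≤ L) (IntermediateField.subset_adjoin ℚ _ ⟨x, hx, rfl⟩))
  have hkψ : ∀ x : E, k (ψ x) = ψ x := fun x =>
    hk _ ((le_sup_left : _ ≤ L) ⟨x, rfl⟩)
  -- each value is one of two
  have htwo : ∀ x : E, k (θ x) = θ x ∨ k (θ x) = θ (conjugation E x) := by
    intro x
    have h1 : k (θ (x + conjugation E x)) = θ (x + conjugation E x) := by
      refine hfix _ ((conj_fix_iff _).mp ?_)
      rw [map_add, conj_conj, add_comm]
    have h2 : k (θ (x * conjugation E x)) = θ (x * conjugation E x) := by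
      refine hfix _ ((conj_fix_iff _).mp ?_)
      rw [map_mul, conj_conj, mul_comm]
    rw [map_add, map_add] at h1
    rw [map_mul, map_mul] at h2
    have h3 : (k (θ x) - θ x) * (k (θ x) - θ (conjugation E x)) = 0 := by
      have h4 : k (θ (conjugation E x)) = θ x + θ (conjugation E x) - k (θ x) := by
        rw [← h1]; ring
      rw [h4] at h2
      linear_combination -h2
    rcases mul_eq_zero.mp h3 with h | h
    · exact Or.inl (sub_eq_zero.mp h)
    · exact Or.inr (sub_eq_zero.mp h)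
  have hx0' : k (θ x0) ≠ θ x0 := by
    have : (θ : E →+* K) x0 = y := hx0
    have h1 : θ x0 = y := this
    rw [h1]
    exact hky
  have h0 : k (θ x0) = θ (conjugation E x0) := (htwo x0).resolve_left hx0'
  have hall : ∀ x : E, k (θ x) = θ (conjugation E x) := by
    intro x
    rcases htwo x with h1 | h1
    · rcases htwo (x + x0) with h2 | h2
      · exfalso
        apply hx0'
        rw [map_add, map_add, h1] at h2
        exact add_left_cancel h2
      · rw [map_add, map_add, map_add, map_add, h0] at h2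
        exact add_right_cancel h2
    · exact h1
  refine ⟨k, ?_, ?_⟩
  · apply AlgHom.ext
    intro x
    exact hkψ x
  · apply AlgHom.ext
    intro x
    exact (hall x).trans (emb_conj' θ x)

/-- the action of the automorphisms of `E` on its embeddings. -/
noncomputable def rr (a : E ≃ₐ[ℚ] E) (ψ : E →ₐ[ℚ] K) : E →ₐ[ℚ] K := ψ.comp (a⁻¹ : E ≃ₐ[ℚ] E)

omit [IsGalois ℚ K] [IsCMField E] [IsCMField K] in
lemma exists_of_range_eq {ψ θ : E →ₐ[ℚ] K} (h : θ.fieldRange = ψ.fieldRange) :
    ∃ a : E ≃ₐ[ℚ] E, θ = rr a ψ := by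
  have h1 : θ.range = ψ.range := congrArg IntermediateField.toSubalgebra h
  let b : E ≃ₐ[ℚ] E := (AlgEquiv.ofInjectiveField θ).trans
    ((Subalgebra.equivOfEq _ _ h1).trans (AlgEquiv.ofInjectiveField ψ).symm)
  refine ⟨b⁻¹, ?_⟩
  apply AlgHom.ext
  intro x
  change θ x = ψ ((b⁻¹)⁻¹ x)
  rw [inv_inv]
  have h2 : (AlgEquiv.ofInjectiveField ψ) (b x) =
      (Subalgebra.equivOfEq _ _ h1) (AlgEquiv.ofInjectiveField θ x) := by
    change (AlgEquiv.ofInjectiveField ψ) ((AlgEquiv.ofInjectiveField ψ).symm _) = _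
    rw [AlgEquiv.apply_symm_apply]
    rfl
  have h3 := congrArg Subtype.val h2
  exact h3.symm

lemma conj_comm_aut (a : E ≃ₐ[ℚ] E) : conjugation E * a = a * conjugation E :=
  Pool.Agent.Q11.CZ.conj_comm a

lemma conj_ne_one : conjugation E ≠ 1 := by
  intro h
  apply IsCMField.complexConj_ne_one E
  apply AlgEquiv.ext
  intro x
  exact congrArg (fun g : E ≃ₐ[ℚ] E => g x) h

/-- **Main theorem, general form.** -/
theorem mem_avgSpan (hL : ∀ ψ θ : E →ₐ[ℚ] K, Linked ψ θ → θ.fieldRange = ψ.fieldRange)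
    (hR : Rat (E ≃ₐ[ℚ] E) (conjugation E)) {Φ : Finset (E →ₐ[ℚ] K)} (hΦ : IsCMType Φ)
    (ψ : E →ₐ[ℚ] K) : a0 ψ Φ ∈ avgSpan K := by
  refine ((result K).1 _).mpr ⟨a0_cm ψ hΦ, ?_⟩
  rw [a0_eq]
  have hz : Pool.Agent.Q11.CZ.ZInv (Pool.Agent.Q11.CZ.a0 ψ Φ : (K ≃ₐ[ℚ] K) → ℚ) := by
    refine zinv_a0 (A := E ≃ₐ[ℚ] E) (r := rr) (c := conjugation K) (z := conjugation E)
      ?_ ?_ ?_ Pool.Agent.Q11.CZ.conj_comm Pool.Agent.Q11.CZ.conj_mul_self conj_ne_one
      conj_comm_aut Pool.Agent.Q11.CZ.conj_mul_self ?_ hR ψ (isHalf hΦ) ?_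
    · intro x
      apply AlgHom.ext
      intro y
      rfl
    · intro a b x
      apply AlgHom.ext
      intro y
      change x ((a * b)⁻¹ y) = x (b⁻¹ (a⁻¹ y))
      rw [mul_inv_rev]
      rfl
    · intro g a x
      rfl
    · intro x
      apply AlgHom.ext
      intro y
      change x ((conjugation E)⁻¹ y) = conjugation K (x y)
      have h1 : (conjugation E)⁻¹ = conjugation E := by
        rw [inv_eq_iff_mul_eq_one]
        exact Pool.Agent.Q11.CZ.conj_mul_self
      rw [h1, emb_conj']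
    · intro θ
      by_cases h : Linked ψ θ
      · exact Or.inr (exists_of_range_eq (hL ψ θ h))
      · exact Or.inl (exists_of_not_linked h)
  exact hz

lemma rr_one (x : E →ₐ[ℚ] K) : rr 1 x = x := by
  apply AlgHom.ext
  intro y
  rfl

lemma rr_mul (a b : E ≃ₐ[ℚ] E) (x : E →ₐ[ℚ] K) : rr (a * b) x = rr a (rr b x) := by
  apply AlgHom.ext
  intro y
  change x ((a * b)⁻¹ y) = x (b⁻¹ (a⁻¹ y))
  rw [mul_inv_rev]
  rfl

lemma rr_conj (x : E →ₐ[ℚ] K) : rr (conjugation E) x = conjugation K • x := by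
  apply AlgHom.ext
  intro y
  change x ((conjugation E)⁻¹ y) = conjugation K (x y)
  have h1 : (conjugation E)⁻¹ = conjugation E := by
    rw [inv_eq_iff_mul_eq_one]
    exact Pool.Agent.Q11.CZ.conj_mul_self
  rw [h1, emb_conj']

/-- **The sums over CM types.** -/
theorem height_mem_avgSpan
    (hL : ∀ ψ θ : E →ₐ[ℚ] K, Linked ψ θ → θ.fieldRange = ψ.fieldRange)
    (hR : RatInv (E ≃ₐ[ℚ] E) (conjugation E)) {Φ : Finset (E →ₐ[ℚ] K)} (hΦ : IsCMType Φ) :
    heightFn Φ ∈ avgSpan K := by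
  refine ((result K).1 _).mpr ⟨height_cm hΦ, ?_⟩
  rw [heightFn_eq]
  have hz : Pool.Agent.Q11.CZ.ZInv (Pool.Agent.Q11.CZ.T Φ : (K ≃ₐ[ℚ] K) → ℚ) := by
    refine zinv_T (A := E ≃ₐ[ℚ] E) (r := rr) (c := conjugation K) (z := conjugation E)
      rr_one rr_mul (fun g a x => rfl) Pool.Agent.Q11.CZ.conj_comm
      Pool.Agent.Q11.CZ.conj_mul_self conj_ne_one
      conj_comm_aut Pool.Agent.Q11.CZ.conj_mul_self rr_conj hR (isHalf hΦ) ?_
    intro ψ θ
    by_cases h : Linked ψ θ
    · exact Or.inr (exists_of_range_eq (hL ψ θ h))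
    · exact Or.inl (exists_of_not_linked h)
  exact hz

/-- If the maximal real subfield is Galois over `ℚ`, linked embeddings have the same image. -/
theorem range_eq_of_linked [IsGalois ℚ (maximalRealSubfield E)] (ψ θ : E →ₐ[ℚ] K)
    (h : Linked ψ θ) : θ.fieldRange = ψ.fieldRange := by
  set f : maximalRealSubfield E →ₐ[ℚ] K :=
    ψ.comp (IsScalarTower.toAlgHom ℚ (maximalRealSubfield E) E) with hf
  have hnorm : @Normal ℚ f.fieldRange _ _ f.fieldRange.algebra' :=
    Normal.of_algEquiv (AlgEquiv.ofInjectiveField f : maximalRealSubfield E ≃ₐ[ℚ] f.range)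
  obtain ⟨g, hg⟩ := Pool.Agent.Q11.CZ.exists_lift ψ θ
  have hF : ∀ x ∈ maximalRealSubfield E, θ x ∈ ψ.fieldRange := by
    intro x hx
    have h1 : (ψ x) ∈ f.fieldRange := ⟨⟨x, hx⟩, rfl⟩
    have h2 : ((g : K →ₐ[ℚ] K).comp f.fieldRange.val).fieldRange = f.fieldRange :=
      @AlgHom.fieldRange_of_normal ℚ K _ _ _ f.fieldRange hnorm _
    have h3 : g (ψ x) ∈ f.fieldRange := by
      rw [← h2]
      exact ⟨⟨ψ x, h1⟩, rfl⟩
    have h4 : θ x = g (ψ x) := by rw [← hg]; rfl
    rw [h4]
    obtain ⟨y, hy⟩ := h3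
    exact ⟨y, hy⟩
  have h1 : θ.fieldRange ≤ ψ.fieldRange := by
    refine h.trans (sup_le le_rfl ?_)
    rw [IntermediateField.adjoin_le_iff]
    rintro _ ⟨x, hx, rfl⟩
    exact hF x hx
  refine IntermediateField.eq_of_le_of_finrank_eq h1 ?_
  have e1 : Module.finrank ℚ θ.fieldRange = Module.finrank ℚ E :=
    (LinearEquiv.finrank_eq (AlgEquiv.ofInjectiveField θ : E ≃ₐ[ℚ] θ.range).toLinearEquiv).symm
  have e2 : Module.finrank ℚ ψ.fieldRange = Module.finrank ℚ E :=
    (LinearEquiv.finrank_eq (AlgEquiv.ofInjectiveField ψ : E ≃ₐ[ℚ] ψ.range).toLinearEquiv).symm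
  rw [e1, e2]

/-- **Maximal real subfield of prime degree.** -/
theorem prime_degree [IsGalois ℚ (maximalRealSubfield E)]
    (hp : (Module.finrank ℚ (maximalRealSubfield E)).Prime) {Φ : Finset (E →ₐ[ℚ] K)}
    (hΦ : IsCMType Φ) (ψ : E →ₐ[ℚ] K) : a0 ψ Φ ∈ avgSpan K ⊔ abSpan K := by
  set p := Module.finrank ℚ (maximalRealSubfield E) with hpdef
  have h2 : Module.finrank ℚ E = p * 2 := by
    have h1 := Module.finrank_mul_finrank ℚ (maximalRealSubfield E) E
    rw [← h1, Algebra.IsQuadraticExtension.finrank_eq_two (maximalRealSubfield E) E]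
  have hz1 : conjugation E ≠ 1 := conj_ne_one
  have hz2 : conjugation E * conjugation E = 1 := Pool.Agent.Q11.CZ.conj_mul_self
  have hord : orderOf (conjugation E) = 2 := by
    rw [orderOf_eq_prime_iff]
    exact ⟨by rw [pow_two, hz2], hz1⟩
  have heven : 2 ∣ Nat.card (E ≃ₐ[ℚ] E) := by
    rw [← hord]
    exact orderOf_dvd_natCard _
  have hdvd : Nat.card (E ≃ₐ[ℚ] E) ∣ p * 2 := by
    have h3 := IntermediateField.finrank_fixedField_eq_card (F := ℚ) (E := E) ⊤
    have h4 := Module.finrank_mul_finrank ℚ (IntermediateField.fixedField (⊤ : Subgroup (E ≃ₐ[ℚ] E))) E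
    rw [h3, h2] at h4
    have h5 : Nat.card (⊤ : Subgroup (E ≃ₐ[ℚ] E)) = Nat.card (E ≃ₐ[ℚ] E) := Subgroup.card_top
    rw [h5] at h4
    exact Dvd.intro_left _ h4
  obtain ⟨t, ht⟩ := heven
  have ht2 : t ∣ p := by
    rw [ht, mul_comm p 2] at hdvd
    exact Nat.dvd_of_mul_dvd_mul_left (by norm_num) hdvd
  rcases (Nat.dvd_prime hp).mp ht2 with h1 | h1
  · -- the automorphism group has order two
    refine Submodule.mem_sup_left (mem_avgSpan (fun ψ θ h => range_eq_of_linked ψ θ h) ?_ hΦ ψ)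
    rw [h1, mul_one] at ht
    have hall : ∀ a : E ≃ₐ[ℚ] E, a = 1 ∨ a = conjugation E := by
      have h3 := (Nat.card_eq_two_iff' (1 : E ≃ₐ[ℚ] E)).mp ht
      obtain ⟨w, hw1, hw2⟩ := h3
      intro a
      by_cases ha : a = 1
      · exact Or.inl ha
      · right
        rw [hw2 a ha, hw2 _ hz1]
    intro a
    right
    intro a' ha'
    have h3 : a' = a := by
      rcases hall a with rfl | rfl
      · rw [Subgroup.zpowers_one_eq_bot, Subgroup.zpowers_eq_bot] at ha'
        exact ha'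
      · rcases hall a' with rfl | rfl
        · rw [Subgroup.zpowers_one_eq_bot] at ha'
          exact absurd (Subgroup.zpowers_eq_bot.mp ha'.symm) hz1
        · rfl
    rw [h3]
  · -- the field is abelian over the rational numbers
    rw [h1] at ht
    have hgal : IsGalois ℚ E := by
      refine IsGalois.of_card_aut_eq_finrank ℚ E ?_
      rw [ht, h2, mul_comm]
    have hcomm : ∀ a b : E ≃ₐ[ℚ] E, a * b = b * a := by
      have hz : Subgroup.zpowers (conjugation E) ≤ Subgroup.center (E ≃ₐ[ℚ] E) := by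
        rw [Subgroup.zpowers_le, Subgroup.mem_center_iff]
        exact fun g => (conj_comm_aut g).symm
      have hn : (Subgroup.zpowers (conjugation E)).Normal := ⟨fun n hn g => by
        have h := Subgroup.mem_center_iff.mp (hz hn) g
        rw [h, mul_inv_cancel_right]
        exact hn⟩
      have hq : Nat.card ((E ≃ₐ[ℚ] E) ⧸ Subgroup.zpowers (conjugation E)) = p := by
        have h3 := Subgroup.card_eq_card_quotient_mul_card_subgroup
          (Subgroup.zpowers (conjugation E))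
        rw [Nat.card_zpowers, hord, ht, mul_comm 2 p] at h3
        exact (Nat.eq_of_mul_eq_mul_right (by norm_num) h3).symm
      have hpf : Fact p.Prime := ⟨hp⟩
      have hcyc : IsCyclic ((E ≃ₐ[ℚ] E) ⧸ Subgroup.zpowers (conjugation E)) :=
        isCyclic_of_prime_card hq
      exact commutative_of_cyclic_center_quotient
        (QuotientGroup.mk' (Subgroup.zpowers (conjugation E))) (by
          rw [QuotientGroup.ker_mk']
          exact hz)
    have hmc : IsMulCommutative (E ≃ₐ[ℚ] E) := ⟨⟨hcomm⟩⟩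
    have hab : IsAbelianGalois ℚ E := { }
    refine Submodule.mem_sup_right (Submodule.subset_span ?_)
    exact ⟨E, inferInstance, inferInstance, hab, ψ, Φ, hΦ, rfl⟩

end galois

end Pool.Agent.N770.CP
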