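import Pool.Agent.N770.CP.Sharp

/-!
# The condition on the automorphisms is necessary: the sums over CM types
-/

set_option autoImplicit false

open scoped Classical

namespace Pool.Agent.N770.CP

open Pool.Agent.Q11.CZ

variable {G : Type} [Group G] [Fintype G] {X : Type} [MulAction G X]
variable {A : Type} [Group A] {r : A → X → X}

section

variable (hr1 : ∀ x, r 1 x = x) (hrm : ∀ a b x, r (a * b) x = r a (r b x))
  (hrg : ∀ (g : G) a x, g • r a x = r a (g • x))
variable {c : G} (hc : ∀ g, c * g = g * c) (hc2 : c * c = 1) (hc1 : c ≠ 1)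
  {z : A} (hz : ∀ a, z * a = a * z) (hz2 : z * z = 1) (hzc : ∀ x, r z x = c • x)

omit [Group A] in
include hc in
lemma cnt_cc (x y : X) (g : G) : cnt (c • x) (c • y) g = cnt x y g := by
  unfold cnt
  congr 1
  ext h
  simp only [Finset.mem_filter, Finset.mem_univ, true_and]
  rw [← mul_smul, ← hc, mul_smul]
  exact (MulAction.injective c).eq_iff

include hr1 hrm hrg hc hc2 hz hz2 hzc in
/-- the main step for the sums. -/
lemma conj_of_eq_inv [MulAction.IsPretransitive G X]
    (hfree : ∀ (a : A) (x : X), r a x = x → a = 1)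
    (x : X) (hlink : ∀ y : X, (∃ k : G, k • x = x ∧ k • y = c • y) ∨ ∃ a : A, y = r a x)
    {a b : A} (ha : ¬ IsConj (z * a) a) (ha' : ¬ IsConj (z * a) a⁻¹)
    (hab : ∀ g : G, dd r z x a g + dd r z x a⁻¹ g = dd r z x b g + dd r z x b⁻¹ g) :
    IsConj a b ∨ IsConj a b⁻¹ := by
  by_contra hcon
  push Not at hcon
  obtain ⟨hcon1, hcon2⟩ := hcon
  have hzi : z⁻¹ = z := by
    rw [inv_eq_iff_mul_eq_one, hz2]
  have hF : 0 < (Fa r x a : Finset G).card := by
    obtain ⟨g, hg⟩ := MulAction.exists_smul_eq G x (r a x)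
    refine Finset.card_pos.mpr ⟨g, ?_⟩
    unfold Fa
    simpa using hg
  have hn1 : ∀ t : A, ¬ t * a = z * a * t := by
    intro t h2
    apply ha
    refine (isConj_iff.mpr ⟨t, ?_⟩ : IsConj a (z * a)).symm
    rw [h2, mul_inv_cancel_right]
  have hn2 : ∀ t : A, ¬ t * a = z * a⁻¹ * t := by
    intro t h2
    apply ha'
    have h3 : IsConj a (z * a⁻¹) := isConj_iff.mpr ⟨t, by rw [h2, mul_inv_cancel_right]⟩
    have h4 := isConj_inv h3
    rw [mul_inv_rev, inv_inv, hzi, ← hz] at h4
    exact h4.symm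
  have h1 : ∀ h : G, 0 ≤ wb r z x a a h + wb r z x a a⁻¹ h := by
    intro h
    rcases hlink (h • x) with ⟨k, hk1, hk2⟩ | ⟨t, ht⟩
    · rw [wb_unlinked hrm hrg hc hc2 hzc hk1 hk2, wb_unlinked hrm hrg hc hc2 hzc hk1 hk2, add_zero]
    · rw [wb_linked hr1 hrm hrg hfree ht, wb_linked hr1 hrm hrg hfree ht, if_neg (hn1 t),
        if_neg (hn2 t), sub_zero, sub_zero, ← mul_add]
      refine mul_nonneg (by positivity) (add_nonneg ?_ ?_) <;> split_ifs <;> norm_num
  have h2 : 0 < wb r z x a a (1 : G) + wb r z x a a⁻¹ (1 : G) := by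
    have h3 : (1 : G) • x = r (1 : A) x := by rw [one_smul, hr1]
    rw [wb_linked hr1 hrm hrg hfree h3, wb_linked hr1 hrm hrg hfree h3, if_neg (hn1 1),
        if_neg (hn2 1), if_pos (by rw [one_mul, mul_one]), sub_zero, sub_zero, ← mul_add]
    refine mul_pos (by exact_mod_cast hF) (add_pos_of_pos_of_nonneg one_pos ?_)
    split_ifs <;> norm_num
  have h3 : 0 < ∑ h : G, (wb r z x a a h + wb r z x a a⁻¹ h) :=
    Finset.sum_pos' (fun h _ => h1 h) ⟨1, Finset.mem_univ _, h2⟩
  have h4 : ∑ h : G, (wb r z x a b h + wb r z x a b⁻¹ h) ≤ 0 := by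
    refine Finset.sum_nonpos (fun h _ => ?_)
    rcases hlink (h • x) with ⟨k, hk1, hk2⟩ | ⟨t, ht⟩
    · rw [wb_unlinked hrm hrg hc hc2 hzc hk1 hk2, wb_unlinked hrm hrg hc hc2 hzc hk1 hk2, add_zero]
    · have h5 : ¬ t * a = b * t := by
        intro h5
        apply hcon1
        refine isConj_iff.mpr ⟨t, ?_⟩
        rw [h5, mul_inv_cancel_right]
      have h6 : ¬ t * a = b⁻¹ * t := by
        intro h5
        apply hcon2
        refine isConj_iff.mpr ⟨t, ?_⟩
        rw [h5, mul_inv_cancel_right]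
      rw [wb_linked hr1 hrm hrg hfree ht, wb_linked hr1 hrm hrg hfree ht, if_neg h5, if_neg h6,
        ← mul_add]
      refine mul_nonpos_of_nonneg_of_nonpos (by positivity) ?_
      split_ifs <;> norm_num
  rw [Finset.sum_add_distrib, ← sum_dd hrg (z := z) x a a, ← sum_dd hrg (z := z) x a a⁻¹,
    ← Finset.sum_add_distrib, Finset.sum_congr rfl (fun g _ => hab g)] at h3
  rw [Finset.sum_add_distrib, ← sum_dd hrg (z := z) x a b, ← sum_dd hrg (z := z) x a b⁻¹,
    ← Finset.sum_add_distrib] at h4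
  exact absurd h3 (not_lt.mpr h4)

omit [Group A] [Fintype G] in
include hc2 in
/-- replacing `y` by `c y`. -/
lemma isHalf_replace [Fintype X] {Φ : Finset X} (hΦ : IsHalf c Φ) {y : X} (hy : y ∈ Φ) :
    IsHalf c (insert (c • y) (Φ.erase y)) := by
  have hcy : c • y ∉ Φ := fun h => (hΦ y).mp h hy
  have e1 : symmDiff Φ {y, c • y} = insert (c • y) (Φ.erase y) := by
    ext u
    simp only [Finset.mem_symmDiff, Finset.mem_insert, Finset.mem_singleton,
      Finset.mem_erase]
    constructor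
    · rintro (⟨h1, h2⟩ | ⟨h1 | h1, h2⟩)
      · right
        exact ⟨fun h => h2 (Or.inl h), h1⟩
      · exact absurd (h1 ▸ hy) h2
      · exact Or.inl h1
    · rintro (h1 | ⟨h1, h2⟩)
      · right
        exact ⟨Or.inr h1, h1 ▸ hcy⟩
      · left
        refine ⟨h2, ?_⟩
        rintro (h3 | h3)
        · exact h1 h3
        · exact hcy (h3 ▸ h2)
  rw [← e1]
  exact isHalf_toggle hc2 hΦ y

omit [Group A] in
/-- the double sum over a set with two extra elements. -/
lemma sum_two {Ψ : Finset X} {x y : X} (hx : x ∉ Ψ) (hy : y ∉ Ψ) (hxy : x ≠ y) (f : X → X → ℚ) :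
    ∑ u ∈ insert x (insert y Ψ), ∑ v ∈ insert x (insert y Ψ), f u v =
      f x x + f y y + f x y + f y x + ∑ v ∈ Ψ, (f x v + f v x) + ∑ v ∈ Ψ, (f y v + f v y) +
        ∑ u ∈ Ψ, ∑ v ∈ Ψ, f u v := by
  have h1 : x ∉ insert y Ψ := by
    rw [Finset.mem_insert]
    tauto
  simp only [Finset.sum_insert h1, Finset.sum_insert hy, Finset.sum_add_distrib]
  ring

include hr1 hrm hrg hc hc2 hc1 hz hz2 hzc in
/-- **Necessity for the sums over CM types.** -/
theorem ratInv_of_zinv [Fintype X] [Fintype A] [MulAction.IsPretransitive G X]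
    (hfree : ∀ (a : A) (x : X), r a x = x → a = 1) (hcf : ∀ x : X, c • x ≠ x)
    (x : X) (hlink : ∀ y : X, (∃ k : G, k • x = x ∧ k • y = c • y) ∨ ∃ a : A, y = r a x)
    (hall : ∀ Φ : Finset X, IsHalf c Φ → ZInv (T Φ : G → ℚ)) : RatInv A z := by
  have hG0 : (Fintype.card G : ℚ) ≠ 0 := card_ne
  have hcc : ∀ u : X, c • (c • u) = u := fun u => by rw [← mul_smul, hc2, one_smul]
  have hδ : ∀ (y : X) (g g' : G), y ≠ x → y ≠ c • x → Subgroup.zpowers g = Subgroup.zpowers g' →
      ((cnt x y g : ℤ) - cnt x (c • y) g) + (cnt y x g - cnt y (c • x) g) =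
        (cnt x y g' - cnt x (c • y) g') + (cnt y x g' - cnt y (c • x) g') := by
    intro y g g' hyx hycx hgg
    have hxcy : x ≠ c • y := fun h => hycx (by rw [h, hcc])
    obtain ⟨Φ₀, hΦ₀⟩ := exists_half (X := X) hc2 hcf
    rw [mem_halves] at hΦ₀
    -- a half-system containing `x` and `y`
    obtain ⟨Φ₁, hΦ₁, hx₁⟩ : ∃ Φ : Finset X, IsHalf c Φ ∧ x ∈ Φ := by
      by_cases hx : x ∈ Φ₀
      · exact ⟨Φ₀, hΦ₀, hx⟩
      · refine ⟨_, isHalf_toggle hc2 hΦ₀ x, ?_⟩
        rw [Finset.mem_symmDiff]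
        right
        exact ⟨Finset.mem_insert_self _ _, hx⟩
    obtain ⟨Φ, hΦ, hx, hy⟩ : ∃ Φ : Finset X, IsHalf c Φ ∧ x ∈ Φ ∧ y ∈ Φ := by
      by_cases hy : y ∈ Φ₁
      · exact ⟨Φ₁, hΦ₁, hx₁, hy⟩
      · refine ⟨_, isHalf_toggle hc2 hΦ₁ y, ?_, ?_⟩
        · rw [Finset.mem_symmDiff]
          left
          refine ⟨hx₁, ?_⟩
          rw [Finset.mem_insert, Finset.mem_singleton]
          rintro (h | h)
          · exact hyx h.symm
          · exact hxcy h
        · rw [Finset.mem_symmDiff]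
          right
          exact ⟨Finset.mem_insert_self _ _, hy⟩
    -- the four half-systems
    set Ψ := (Φ.erase x).erase y with hΨ
    have hcx : c • x ∉ Φ := fun h => (hΦ x).mp h hx
    have hcy : c • y ∉ Φ := fun h => (hΦ y).mp h hy
    have hy' : y ∈ Φ.erase x := Finset.mem_erase.mpr ⟨hyx, hy⟩
    have hsub : ∀ u, u ∈ Ψ → u ∈ Φ := fun u hu =>
      Finset.mem_of_mem_erase (Finset.mem_of_mem_erase hu)
    have hxΨ : x ∉ Ψ := fun h => (Finset.notMem_erase x Φ) (Finset.mem_of_mem_erase h)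
    have hyΨ : y ∉ Ψ := Finset.notMem_erase y _
    have hcxΨ : c • x ∉ Ψ := fun h => hcx (hsub _ h)
    have hcyΨ : c • y ∉ Ψ := fun h => hcy (hsub _ h)
    have e0 : Φ = insert x (insert y Ψ) := by
      rw [hΨ, Finset.insert_erase hy', Finset.insert_erase hx]
    have i1 : IsHalf c (insert (c • x) (insert y Ψ)) := by
      have h := isHalf_replace hc2 hΦ hx
      rwa [show Φ.erase x = insert y Ψ by rw [hΨ, Finset.insert_erase hy']] at h
    have i2 : IsHalf c (insert x (insert (c • y) Ψ)) := by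
      have h := isHalf_replace hc2 hΦ hy
      have e1 : Φ.erase y = insert x Ψ := by
        rw [hΨ, Finset.erase_right_comm, Finset.insert_erase]
        exact Finset.mem_erase.mpr ⟨fun h => hyx h.symm, hx⟩
      rw [e1, Finset.insert_comm] at h
      exact h
    have i3 : IsHalf c (insert (c • x) (insert (c • y) Ψ)) := by
      have h := isHalf_replace hc2 i1 (y := y)
        (Finset.mem_insert_of_mem (Finset.mem_insert_self _ _))
      have e1 : (insert (c • x) (insert y Ψ)).erase y = insert (c • x) Ψ := by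
        rw [Finset.erase_insert_of_ne (fun h => hycx h.symm), Finset.erase_insert hyΨ]
      rw [e1, Finset.insert_comm] at h
      exact h
    have i0 : IsHalf c (insert x (insert y Ψ)) := by rwa [← e0]
    have hT : ∀ (Φ : Finset X) (g : G), (T Φ g : ℚ) =
        (∑ u ∈ Φ, ∑ v ∈ Φ, (cnt u v g : ℚ)) / Fintype.card G := by
      intro Φ g
      unfold T
      rw [Finset.sum_div]
      exact Finset.sum_congr rfl (fun u _ => a0_cnt u Φ g)
    have n1 : c • x ≠ y := fun h => hycx h.symm
    have n2 : c • x ≠ c • y := fun h => hyx ((MulAction.injective c) h).symm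
    have key : ∀ g : G, T (insert x (insert y Ψ)) g - T (insert (c • x) (insert y Ψ)) g -
        T (insert x (insert (c • y) Ψ)) g + T (insert (c • x) (insert (c • y) Ψ)) g =
        2 * (((cnt x y g : ℚ) - cnt x (c • y) g) + (cnt y x g - cnt y (c • x) g)) /
          Fintype.card G := by
      intro g
      simp only [hT]
      rw [sum_two hxΨ hyΨ (Ne.symm hyx), sum_two hcxΨ hyΨ n1, sum_two hxΨ hcyΨ hxcy,
        sum_two hcxΨ hcyΨ n2]
      have q1 : cnt (c • x) (c • y) g = cnt x y g := cnt_cc hc x y g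
      have q2 : cnt (c • y) (c • x) g = cnt y x g := cnt_cc hc y x g
      have q3 : cnt (c • x) y g = cnt x (c • y) g := by
        have := cnt_cc hc x (c • y) g
        rwa [hcc] at this
      have q4 : cnt (c • y) x g = cnt y (c • x) g := by
        have := cnt_cc hc y (c • x) g
        rwa [hcc] at this
      rw [q1, q2, q3, q4]
      field_simp
      ring
    have k1 := key g
    rw [hall _ i0 g g' hgg, hall _ i1 g g' hgg, hall _ i2 g g' hgg, hall _ i3 g g' hgg, key g',
      div_left_inj' hG0] at k1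
    have k2 : ((cnt x y g' : ℚ) - cnt x (c • y) g') + (cnt y x g' - cnt y (c • x) g') =
        ((cnt x y g : ℚ) - cnt x (c • y) g) + (cnt y x g - cnt y (c • x) g) :=
      mul_left_cancel₀ (by norm_num) k1
    exact_mod_cast k2.symm
  intro a
  by_cases ha1 : a = 1
  · right
    intro a' ha'
    rw [ha1, Subgroup.zpowers_one_eq_bot, Subgroup.zpowers_eq_bot] at ha'
    left
    rw [ha', ha1]
  have hz1 : z ≠ 1 := by
    intro h
    apply hcf x
    rw [← hzc, h, hr1]
  by_cases haz : a = z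
  · right
    intro a' ha'
    left
    have h1 : a' ∈ Subgroup.zpowers z := by
      rw [← haz, ← ha']
      exact Subgroup.mem_zpowers _
    have hord : orderOf z = 2 := by
      rw [orderOf_eq_prime_iff]
      exact ⟨by rw [pow_two, hz2], hz1⟩
    have h2 : a' = 1 ∨ a' = z := by
      rw [← mem_powers_iff_mem_zpowers, Submonoid.mem_powers_iff] at h1
      obtain ⟨n, rfl⟩ := h1
      rcases Nat.even_or_odd' n with ⟨m, rfl | rfl⟩
      · left
        rw [pow_mul, pow_two, hz2, one_pow]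
      · right
        rw [pow_add, pow_mul, pow_two, hz2, one_pow, one_mul, pow_one]
    rcases h2 with rfl | rfl
    · rw [Subgroup.zpowers_one_eq_bot] at ha'
      exact absurd (Subgroup.zpowers_eq_bot.mp ha'.symm) ha1
    · rw [haz]
  by_cases ha : IsConj (z * a) a ∨ IsConj (z * a) a⁻¹
  · exact Or.inl ha
  right
  push Not at ha
  intro a' ha'
  obtain ⟨j, hj, hgj⟩ : ∃ j : ℕ, j.Coprime (Nat.card (G × A)) ∧ a' = a ^ j := by
    have h1 : Subgroup.zpowers ((1, a) : G × A) = Subgroup.zpowers ((1, a') : G × A) := by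
      have h2 : ∀ a : A, Subgroup.zpowers ((1, a) : G × A) =
          (Subgroup.zpowers a).map (MonoidHom.inr G A) := by
        intro a
        rw [MonoidHom.map_zpowers]
        rfl
      rw [h2, h2, ha']
    obtain ⟨u, hu⟩ := exists_unit h1
    exact ⟨_, ZMod.val_coe_unit_coprime u, congrArg Prod.snd hu⟩
  have hjG : j.Coprime (Nat.card G) := by
    refine Nat.Coprime.coprime_dvd_right ?_ hj
    rw [Nat.card_prod]
    exact Dvd.intro _ rfl
  have hfin : IsConj a a' ∨ IsConj a a'⁻¹ := by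
    refine conj_of_eq_inv hr1 hrm hrg hc hc2 hz hz2 hzc hfree x hlink ha.1 ha.2 (fun g' => ?_)
    obtain ⟨i, hi⟩ : ∃ i : ℕ, (g' ^ i) ^ j = g' := by
      have h2 : g' ∈ Subgroup.zpowers (g' ^ j) := by
        rw [zpowers_pow hjG g']
        exact Subgroup.mem_zpowers _
      rw [← mem_powers_iff_mem_zpowers, Submonoid.mem_powers_iff] at h2
      obtain ⟨i, hi⟩ := h2
      exact ⟨i, by rw [← pow_mul, mul_comm, pow_mul]; exact hi⟩
    have h1 := dd_pow hr1 hrm hrg hc2 hc1 hz hz2 x a (g' ^ i) hj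
    have h1' := dd_pow hr1 hrm hrg hc2 hc1 hz hz2 x a⁻¹ (g' ^ i) hj
    rw [hi, ← hgj] at h1
    rw [hi, inv_pow, ← hgj] at h1'
    have hyx : r a x ≠ x := fun h => ha1 (hfree _ _ h)
    have hycx : r a x ≠ c • x := by
      intro h
      apply haz
      rw [← hzc] at h
      have h3 : r (z⁻¹ * a) x = x := by
        rw [hrm, h, ← hrm, inv_mul_cancel, hr1]
      have h4 := hfree _ _ h3
      rw [inv_mul_eq_one] at h4
      exact h4.symm
    have hpow : Subgroup.zpowers (g' ^ i) = Subgroup.zpowers g' := by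
      conv_rhs => rw [← hi]
      exact (zpowers_pow hjG (g' ^ i)).symm
    have h2 := hδ (r a x) (g' ^ i) g' hyx hycx hpow
    have e1 : ∀ g : G, dd r z x a g = (cnt x (r a x) g : ℤ) - cnt x (c • r a x) g := by
      intro g
      unfold dd
      rw [hrm z, hzc]
    have e2 : ∀ g : G, dd r z x a⁻¹ g = (cnt (r a x) x g : ℤ) - cnt (r a x) (c • x) g := by
      intro g
      rw [dd_base hrg x (r a x) a⁻¹ g]
      unfold dd
      rw [hrm z, hzc, ← hrm a⁻¹ a, inv_mul_cancel, hr1]
    rw [← e1, ← e2, ← e1, ← e2] at h2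
    rw [h1, h1', h2]
  rcases hfin with h | h
  · exact Or.inl h.symm
  · right
    have h3 := isConj_inv h
    rw [inv_inv] at h3
    exact h3.symm

end

end Pool.Agent.N770.CP
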