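import Pool.Agent.N770.CP.Fields
import Pool.Agent.N770.CP.Sharp2

/-!
# The conditions on the automorphisms are necessary
-/

set_option autoImplicit false

open scoped Classical
open NumberField

namespace Pool.Agent.N770.CP

open Pool.Agent.Results.MP_a2beea_nt.AveragedAndAbelian

variable {E K : Type} [Field E] [NumberField E] [Field K] [NumberField K]

lemma rr_free (a : E ≃ₐ[ℚ] E) (ψ : E →ₐ[ℚ] K) (h : rr a ψ = ψ) : a = 1 := by
  have h1 : a⁻¹ = 1 := by
    apply AlgEquiv.ext
    intro x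
    have h2 := congrArg (fun f : E →ₐ[ℚ] K => f x) h
    have h3 : ψ (a⁻¹ x) = ψ x := h2
    exact (ψ : E →+* K).injective h3
  rwa [inv_eq_one] at h1

lemma gen_of_exponent {A : Type} [Group A] [Finite A] {g g' : A} (hG : g ^ 4 = 1 ∨ g ^ 6 = 1)
    (h : Subgroup.zpowers g' = Subgroup.zpowers g) : g' = g ∨ g' = g⁻¹ := by
  have hg' : g' ∈ Subgroup.zpowers g := h ▸ Subgroup.mem_zpowers g'
  have hg : g ∈ Subgroup.zpowers g' := h ▸ Subgroup.mem_zpowers g
  obtain ⟨n, hn⟩ : ∃ n : ℕ, (n = 4 ∨ n = 6) ∧ orderOf g ∣ n := by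
    rcases hG with h | h
    · exact ⟨4, Or.inl rfl, orderOf_dvd_of_pow_eq_one h⟩
    · exact ⟨6, Or.inr rfl, orderOf_dvd_of_pow_eq_one h⟩
  have h6 : g ^ n = 1 := orderOf_dvd_iff_pow_eq_one.mp hn.2
  rw [← mem_powers_iff_mem_zpowers, Submonoid.mem_powers_iff] at hg' hg
  obtain ⟨i, hi⟩ := hg'
  obtain ⟨k, hk⟩ := hg
  -- reduce the exponent
  have hi' : g ^ (i % n) = g' := by
    rw [← hi]
    conv_rhs => rw [← Nat.div_add_mod i n, pow_add, pow_mul, h6, one_pow, one_mul]
  have hk' : g' ^ (k % n) = g := by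
    have h7 : g' ^ n = 1 := by rw [← hi, ← pow_mul, mul_comm, pow_mul, h6, one_pow]
    rw [← hk]
    conv_rhs => rw [← Nat.div_add_mod k n, pow_add, pow_mul, h7, one_pow, one_mul]
  have hn0 : 0 < n := by rcases hn.1 with rfl | rfl <;> norm_num
  have hilt : i % n < n := Nat.mod_lt _ hn0
  have hklt : k % n < n := Nat.mod_lt _ hn0
  have hik : g ^ ((i % n) * (k % n)) = g ^ 1 := by rw [pow_mul, hi', hk', pow_one]
  rw [pow_eq_pow_iff_modEq] at hik
  generalize i % n = a at *
  generalize k % n = b at *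
  have hm : orderOf g = 1 ∨ orderOf g = 2 ∨ orderOf g = 3 ∨ orderOf g = 4 ∨ orderOf g = 6 := by
    have h8 := hn.2
    rcases hn.1 with rfl | rfl
    · have := Nat.le_of_dvd (by norm_num) h8
      interval_cases orderOf g <;> omega
    · have := Nat.le_of_dvd (by norm_num) h8
      interval_cases orderOf g <;> omega
  have hclaim : a ≡ 1 [MOD orderOf g] ∨ a + 1 ≡ 0 [MOD orderOf g] := by
    have hn' : n = 4 ∨ n = 6 := hn.1
    unfold Nat.ModEq at hik ⊢
    rcases hm with h | h | h | h | h <;> rw [h] at hik ⊢ <;> rcases hn' with rfl | rfl <;>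
      interval_cases a <;> interval_cases b <;> simp at hik ⊢
  rcases hclaim with h | h
  · left
    rw [← hi']
    have := (pow_eq_pow_iff_modEq (x := g)).mpr h
    rwa [pow_one] at this
  · right
    rw [← hi']
    have := (pow_eq_pow_iff_modEq (x := g)).mpr h
    rw [pow_succ, pow_zero] at this
    exact eq_inv_of_mul_eq_one_left this

/-- the automorphisms which fix the maximal real subfield. -/
lemma fix_real [IsCMField E] (b : E ≃ₐ[ℚ] E) (hb : ∀ x ∈ maximalRealSubfield E, b x = x) :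
    b = 1 ∨ b = conjugation E := by
  have htwo : ∀ x : E, b x = x ∨ b x = conjugation E x := by
    intro x
    have h1 : b (x + conjugation E x) = x + conjugation E x := by
      refine hb _ ((conj_fix_iff _).mp ?_)
      rw [map_add, conj_conj, add_comm]
    have h2 : b (x * conjugation E x) = x * conjugation E x := by
      refine hb _ ((conj_fix_iff _).mp ?_)
      rw [map_mul, conj_conj, mul_comm]
    rw [map_add] at h1
    rw [map_mul] at h2
    have h3 : (b x - x) * (b x - conjugation E x) = 0 := by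
      have h4 : b (conjugation E x) = x + conjugation E x - b x := by
        rw [← h1]; ring
      rw [h4] at h2
      linear_combination -h2
    rcases mul_eq_zero.mp h3 with h | h
    · exact Or.inl (sub_eq_zero.mp h)
    · exact Or.inr (sub_eq_zero.mp h)
  by_cases h : ∀ x, b x = x
  · left
    apply AlgEquiv.ext
    exact h
  · right
    push Not at h
    obtain ⟨x0, hx0⟩ := h
    have h0 : b x0 = conjugation E x0 := (htwo x0).resolve_left hx0
    apply AlgEquiv.ext
    intro x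
    rcases htwo x with h1 | h1
    · rcases htwo (x + x0) with h2 | h2
      · exfalso
        apply hx0
        rw [map_add, h1] at h2
        exact add_left_cancel h2
      · rw [map_add, map_add, h0] at h2
        exact add_right_cancel h2
    · exact h1

/-- Maximal real subfields whose Galois group has exponent dividing `2` or `3`. -/
lemma ratInv_of_exponent [IsCMField E] [IsGalois ℚ (maximalRealSubfield E)]
    (h : (∀ g : maximalRealSubfield E ≃ₐ[ℚ] maximalRealSubfield E, g ^ 2 = 1) ∨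
      ∀ g : maximalRealSubfield E ≃ₐ[ℚ] maximalRealSubfield E, g ^ 3 = 1) :
    RatInv (E ≃ₐ[ℚ] E) (conjugation E) := by
  have hz2 : conjugation E * conjugation E = 1 := Pool.Agent.Q11.CZ.conj_mul_self
  have key : ∀ (n : ℕ) (a : E ≃ₐ[ℚ] E),
      (∀ g : maximalRealSubfield E ≃ₐ[ℚ] maximalRealSubfield E, g ^ n = 1) →
        a ^ (n * 2) = 1 := by
    intro n a hn
    have h1 : a ^ n = 1 ∨ a ^ n = conjugation E := by
      refine fix_real _ (fun x hx => ?_)
      have h2 : AlgEquiv.restrictNormalHom (maximalRealSubfield E) (a ^ n) = 1 := by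
        rw [map_pow]
        exact hn _
      have h3 := AlgEquiv.restrictNormal_commutes (a ^ n) (maximalRealSubfield E) ⟨x, hx⟩
      have h4 : (a ^ n).restrictNormal (maximalRealSubfield E) = 1 := h2
      rw [h4] at h3
      exact h3.symm
    rw [pow_mul]
    rcases h1 with h1 | h1
    · rw [h1, one_pow]
    · rw [h1, pow_two, hz2]
  intro a
  right
  intro a' ha'
  have hexp : a ^ 4 = 1 ∨ a ^ 6 = 1 := by
    rcases h with h | h
    · exact Or.inl (key 2 a h)
    · exact Or.inr (key 3 a h)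
  rcases gen_of_exponent hexp ha' with h1 | h1
  · left; rw [h1]
  · right; rw [h1]

section galois

variable [IsGalois ℚ K] [IsCMField E] [IsCMField K]

lemma link_or (hL : ∀ ψ θ : E →ₐ[ℚ] K, Linked ψ θ → θ.fieldRange = ψ.fieldRange)
    (ψ θ : E →ₐ[ℚ] K) : (∃ k : K ≃ₐ[ℚ] K, k • ψ = ψ ∧ k • θ = conjugation K • θ) ∨
      ∃ a : E ≃ₐ[ℚ] E, θ = rr a ψ := by
  by_cases h : Linked ψ θ
  · exact Or.inr (exists_of_range_eq (hL ψ θ h))
  · exact Or.inl (exists_of_not_linked h)

lemma conj_free (θ : E →ₐ[ℚ] K) : conjugation K • θ ≠ θ := by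
  rw [← rr_conj]
  intro h
  exact conj_ne_one (rr_free _ _ h)

/-- **Necessity.** -/
theorem rat_of_mem (hL : ∀ ψ θ : E →ₐ[ℚ] K, Linked ψ θ → θ.fieldRange = ψ.fieldRange)
    (ψ : E →ₐ[ℚ] K)
    (hall : ∀ Φ : Finset (E →ₐ[ℚ] K), IsCMType Φ → ∀ ψ : E →ₐ[ℚ] K, a0 ψ Φ ∈ avgSpan K) :
    Rat (E ≃ₐ[ℚ] E) (conjugation E) := by
  refine rat_of_zinv (G := K ≃ₐ[ℚ] K) (X := E →ₐ[ℚ] K) (r := rr) (c := conjugation K)
    rr_one rr_mul (fun g a x => rfl) Pool.Agent.Q11.CZ.conj_comm
    Pool.Agent.Q11.CZ.conj_mul_self conj_ne_one conj_comm_aut Pool.Agent.Q11.CZ.conj_mul_self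
    rr_conj rr_free conj_free ψ (fun θ => link_or hL ψ θ) ?_
  intro Φ hΦ
  have h1 := (((result K).1 _).mp (hall Φ hΦ ψ)).2
  rw [a0_eq] at h1
  exact h1

/-- **Necessity for the sums.** -/
theorem ratInv_of_mem (hL : ∀ ψ θ : E →ₐ[ℚ] K, Linked ψ θ → θ.fieldRange = ψ.fieldRange)
    (ψ : E →ₐ[ℚ] K)
    (hall : ∀ Φ : Finset (E →ₐ[ℚ] K), IsCMType Φ → heightFn Φ ∈ avgSpan K) :
    RatInv (E ≃ₐ[ℚ] E) (conjugation E) := by
  refine ratInv_of_zinv (G := K ≃ₐ[ℚ] K) (X := E →ₐ[ℚ] K) (r := rr) (c := conjugation K)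
    rr_one rr_mul (fun g a x => rfl) Pool.Agent.Q11.CZ.conj_comm
    Pool.Agent.Q11.CZ.conj_mul_self conj_ne_one conj_comm_aut Pool.Agent.Q11.CZ.conj_mul_self
    rr_conj rr_free conj_free ψ (fun θ => link_or hL ψ θ) ?_
  intro Φ hΦ
  have h1 := (((result K).1 _).mp (hall Φ hΦ)).2
  rw [heightFn_eq] at h1
  exact h1

end galois

end Pool.Agent.N770.CP
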