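import Pool.Agent.N770.CP.Crit

/-!
# One-dimensional characters and the second space
-/

set_option autoImplicit false

open scoped Classical

namespace Pool.Agent.N770.CP

open Pool.Agent.Q11.CZ

variable {G : Type} [Group G] [Fintype G]

/-- functions `f` such that `f(g ^ j) - f(g)` depends on the class of `g` in the abelianisation only. -/
def Ac (G : Type) [Group G] : Submodule ℂ (G → ℂ) where
  carrier := {f | ∀ j : ℕ, j.Coprime (Nat.card G) → ∀ g : G, ∀ z ∈ commutator G,
    f ((g * z) ^ j) - f (g * z) = f (g ^ j) - f g}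
  add_mem' := by
    intro a b ha hb j hj g z hz
    have h1 := ha j hj g z hz
    have h2 := hb j hj g z hz
    change a _ + b _ - (a _ + b _) = a _ + b _ - (a _ + b _)
    linear_combination h1 + h2
  zero_mem' := by
    intro j _ g z _
    rfl
  smul_mem' := by
    intro r a ha j hj g z hz
    have h1 := ha j hj g z hz
    change r * a _ - r * a _ = r * a _ - r * a _
    linear_combination r * h1

lemma Zc_le_Ac : Zc G ≤ Ac G := by
  intro f hf j hj g z _
  rw [hf _ _ (zpowers_pow hj (g * z)), hf _ _ (zpowers_pow hj g), sub_self, sub_self]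

/-- a function with vanishing sums over the classes of the abelianisation. -/
lemma mem_Zc_of_sums {f : G → ℂ} (hf : f ∈ Ac G)
    (h0 : ∀ g : G, ∑ z ∈ Finset.univ.filter (fun z : G => z ∈ commutator G), f (g * z) = 0) :
    f ∈ Zc G := by
  have key : ∀ (g : G) (j : ℕ), j.Coprime (Nat.card G) → f (g ^ j) = f g := by
    intro g j hj
    set S : Finset G := Finset.univ.filter (fun z : G => z ∈ commutator G) with hS
    have hmem : ∀ z, z ∈ S ↔ z ∈ commutator G := fun z => by
      rw [hS]
      simp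
    have h1 : ∑ z ∈ S, (f ((g * z) ^ j) - f (g * z)) = S.card • (f (g ^ j) - f g) := by
      rw [← Finset.sum_const]
      exact Finset.sum_congr rfl (fun z hz => hf j hj g z ((hmem z).mp hz))
    have h2 : ∑ z ∈ S, f ((g * z) ^ j) = ∑ z ∈ S, f (g ^ j * z) := by
      have hq : ∀ a b : G, a * b⁻¹ ∈ commutator G ↔
          (QuotientGroup.mk' (commutator G)) a = (QuotientGroup.mk' (commutator G)) b := by
        intro a b
        rw [← div_eq_mul_inv, ← QuotientGroup.eq_one_iff]
        change (QuotientGroup.mk' (commutator G)) (a / b) = 1 ↔ _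
        rw [map_div, div_eq_one]
      let e : G ≃ G := powCoprime (Nat.Coprime.symm hj)
      refine Finset.sum_bij' (fun z _ => (g ^ j)⁻¹ * (g * z) ^ j)
        (fun z _ => g⁻¹ * e.symm (g ^ j * z)) (fun z hz => ?_) (fun z hz => ?_) (fun z hz => ?_)
        (fun z hz => ?_) (fun z hz => ?_)
      · rw [hmem] at hz ⊢
        rw [← QuotientGroup.eq_one_iff] at hz ⊢
        change (QuotientGroup.mk' (commutator G)) _ = 1
        have hz' : (QuotientGroup.mk' (commutator G)) z = 1 := hz
        rw [map_mul, map_inv, map_pow, map_pow, map_mul, hz', mul_one, inv_mul_cancel]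
      · rw [hmem] at hz ⊢
        rw [← QuotientGroup.eq_one_iff] at hz ⊢
        have hz' : (QuotientGroup.mk' (commutator G)) z = 1 := hz
        change (QuotientGroup.mk' (commutator G)) _ = 1
        set w := e.symm (g ^ j * z) with hw
        have hw' : w ^ j = g ^ j * z := by
          have : e w = g ^ j * z := by rw [hw, Equiv.apply_symm_apply]
          exact this
        have h3 : ((QuotientGroup.mk' (commutator G)) w) ^ j =
            ((QuotientGroup.mk' (commutator G)) g) ^ j := by
          rw [← map_pow, hw', map_mul, hz', mul_one, map_pow]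
        have h4 : (Nat.card (G ⧸ commutator G)).Coprime j :=
          Nat.Coprime.coprime_dvd_left (Subgroup.card_quotient_dvd_card _) hj.symm
        have h5 := (powCoprime h4).injective h3
        rw [map_mul, map_inv, h5, inv_mul_cancel]
      · have h3 : g ^ j * ((g ^ j)⁻¹ * (g * z) ^ j) = e (g * z) := by
          rw [mul_inv_cancel_left]
          rfl
        rw [h3, Equiv.symm_apply_apply, inv_mul_cancel_left]
      · rw [mul_inv_cancel_left]
        have h3 : (e.symm (g ^ j * z)) ^ j = g ^ j * z := by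
          have : e (e.symm (g ^ j * z)) = g ^ j * z := Equiv.apply_symm_apply _ _
          exact this
        rw [h3, inv_mul_cancel_left]
      · rw [mul_inv_cancel_left]
    rw [Finset.sum_sub_distrib, h2, h0, h0, sub_zero] at h1
    have h3 : S.card ≠ 0 := by
      have : (1 : G) ∈ S := (hmem 1).mpr (Subgroup.one_mem _)
      exact Finset.card_ne_zero_of_mem this
    rw [nsmul_eq_mul] at h1
    have h4 := (mul_eq_zero.mp h1.symm).resolve_left (by exact_mod_cast h3)
    exact sub_eq_zero.mp h4
  intro g g' hgg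
  obtain ⟨u, hu⟩ := exists_unit hgg
  rw [hu]
  exact (key g _ (ZMod.val_coe_unit_coprime u)).symm

lemma toC_mem_Zc (f : G → ℚ) : toC f ∈ Zc G ↔
    ∀ g g' : G, Subgroup.zpowers g = Subgroup.zpowers g' → f g = f g' := by
  constructor
  · intro h g g' hg
    have h1 : ((f g : ℚ) : ℂ) = (f g' : ℚ) := h g g' hg
    exact_mod_cast h1
  · intro h g g' hg
    change ((f g : ℚ) : ℂ) = (f g' : ℚ)
    rw [h g g' hg]

lemma toC_mem_Ac (f : G → ℚ) : toC f ∈ Ac G ↔
    ∀ j : ℕ, j.Coprime (Nat.card G) → ∀ g : G, ∀ z ∈ commutator G,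
      f ((g * z) ^ j) - f (g * z) = f (g ^ j) - f g := by
  constructor
  · intro h j hj g z hz
    have h1 : ((f ((g * z) ^ j) : ℚ) : ℂ) - (f (g * z) : ℚ) = (f (g ^ j) : ℚ) - (f g : ℚ) :=
      h j hj g z hz
    exact_mod_cast h1
  · intro h j hj g z hz
    change ((f ((g * z) ^ j) : ℚ) : ℂ) - (f (g * z) : ℚ) = (f (g ^ j) : ℚ) - (f g : ℚ)
    exact_mod_cast congrArg (fun q : ℚ => (q : ℂ)) (h j hj g z hz)

lemma good_base {X : Type} [MulAction G X] {c : G} (x : X) (k : G) {χ : G → ℂ}
    (h : Good c (k • x) χ) : Good c x χ := by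
  obtain ⟨V, _, _, _, ρ, hirr, hodd, ⟨v, hv0, hv⟩, rfl⟩ := h
  refine ⟨V, _, _, inferInstance, ρ, hirr, hodd, ⟨ρ k⁻¹ v, ?_, ?_⟩, rfl⟩
  · intro h0
    apply hv0
    have h1 : ρ k (ρ k⁻¹ v) = v := by
      change (ρ k * ρ k⁻¹) v = v
      rw [← map_mul, mul_inv_cancel, map_one]
      rfl
    rw [← h1, h0, map_zero]
  · intro g hg
    have h1 : (k * g * k⁻¹) • (k • x) = k • x := by
      rw [mul_smul, inv_smul_smul, mul_smul, hg]
    have h2 := hv _ h1
    have h3 : ρ g (ρ k⁻¹ v) = ρ k⁻¹ (ρ (k * g * k⁻¹) v) := by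
      change (ρ g * ρ k⁻¹) v = (ρ k⁻¹ * ρ (k * g * k⁻¹)) v
      rw [← map_mul, ← map_mul]
      congr 2
      group
    rw [h3, h2]

section rep

variable {V : Type} [AddCommGroup V] [Module ℂ V] [FiniteDimensional ℂ V]
  (ρ : Representation ℂ G V)

lemma finrank_one_of_scalar (hirr : ρ.IsIrreducible) (hs : ∀ g, ∃ l : ℂ, ρ g = l • 1) :
    Module.finrank ℂ V = 1 := by
  have hnt := nontrivial_of_irr ρ hirr
  obtain ⟨v, hv⟩ := exists_ne (0 : V)
  let W : Subrepresentation ρ :=
    { toSubmodule := ℂ ∙ v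
      apply_mem_toSubmodule := by
        intro g w hw
        obtain ⟨l, hl⟩ := hs g
        rw [hl]
        exact Submodule.smul_mem _ l hw }
  have h1 : W = ⊥ ∨ W = ⊤ := hirr.eq_bot_or_eq_top W
  rcases h1 with h1 | h1
  · exfalso
    have h2 : (ℂ ∙ v) = ⊥ := congrArg Subrepresentation.toSubmodule h1
    rw [Submodule.span_singleton_eq_bot] at h2
    exact hv h2
  · have h2 : (ℂ ∙ v) = ⊤ := congrArg Subrepresentation.toSubmodule h1
    rw [finrank_eq_one_iff']
    refine ⟨v, hv, fun w => ?_⟩
    have h3 : w ∈ ℂ ∙ v := by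
      rw [h2]
      exact Submodule.mem_top
    exact Submodule.mem_span_singleton.mp h3

lemma sum_comm_zero (hirr : ρ.IsIrreducible) (hd : Module.finrank ℂ V ≠ 1) :
    ∑ z ∈ Finset.univ.filter (fun z : G => z ∈ commutator G), ρ z = 0 := by
  set P : Module.End ℂ V := ∑ z ∈ Finset.univ.filter (fun z : G => z ∈ commutator G), ρ z with hP
  have h1 : P = ∑ z : G, (if z ∈ commutator G then (1 : ℂ) else 0) • ρ z := by
    rw [hP, Finset.sum_filter]
    refine Finset.sum_congr rfl (fun z _ => ?_)
    split_ifs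
    · rw [one_smul]
    · rw [zero_smul]
  obtain ⟨l, hl, -⟩ := schur ρ hirr P (fun g => by
    rw [h1]
    refine sum_comm_conj ρ _ (fun a x => ?_) g
    have h2 : x * a * x⁻¹ ∈ commutator G ↔ a ∈ commutator G := by
      constructor
      · intro h
        have := (inferInstance : (commutator G).Normal).conj_mem _ h x⁻¹
        have e : x⁻¹ * (x * a * x⁻¹) * x⁻¹⁻¹ = a := by group
        rwa [e] at this
      · intro h
        exact (inferInstance : (commutator G).Normal).conj_mem _ h x
    simp only [h2])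
  by_cases hl0 : l = 0
  · rw [hl, hl0, zero_smul]
  exfalso
  have h3 : ∀ z ∈ commutator G, ρ z = 1 := by
    intro z hz
    have h4 : ρ z * P = P := by
      rw [hP, Finset.mul_sum]
      refine Finset.sum_bij' (fun w _ => z * w) (fun w _ => z⁻¹ * w) (fun w hw => ?_)
        (fun w hw => ?_) (fun w _ => by group) (fun w _ => by group) (fun w _ => ?_)
      · simp only [Finset.mem_filter, Finset.mem_univ, true_and] at hw ⊢
        exact Subgroup.mul_mem _ hz hw
      · simp only [Finset.mem_filter, Finset.mem_univ, true_and] at hw ⊢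
        exact Subgroup.mul_mem _ (Subgroup.inv_mem _ hz) hw
      · rw [map_mul]
    rw [hl, mul_smul_comm, mul_one] at h4
    exact smul_right_injective _ hl0 h4
  have hcomm : ∀ a b : G, ρ a * ρ b = ρ b * ρ a := by
    intro a b
    have h4 : a * b = (a * b * a⁻¹ * b⁻¹) * (b * a) := by group
    have h5 : a * b * a⁻¹ * b⁻¹ ∈ commutator G := by
      have := Subgroup.commutator_mem_commutator (H₁ := (⊤ : Subgroup G)) (H₂ := ⊤)
        (Subgroup.mem_top a) (Subgroup.mem_top b)
      rw [commutatorElement_def] at this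
      exact this
    rw [← map_mul, h4, map_mul, h3 _ h5, one_mul, map_mul]
  apply hd
  refine finrank_one_of_scalar ρ hirr (fun g => ?_)
  obtain ⟨l', hl', -⟩ := schur ρ hirr (ρ g) (fun u => hcomm g u)
  exact ⟨l', hl'⟩

lemma char_sum_zero (hirr : ρ.IsIrreducible) (hd : Module.finrank ℂ V ≠ 1) (g : G) :
    ∑ z ∈ Finset.univ.filter (fun z : G => z ∈ commutator G), ρ.character (g * z) = 0 := by
  have h1 := congrArg (fun T : Module.End ℂ V => LinearMap.trace ℂ V (ρ g * T))
    (sum_comm_zero ρ hirr hd)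
  simp only [mul_zero, map_zero, Finset.mul_sum, map_sum, ← map_mul] at h1
  exact h1

lemma char_inv_sum_zero (hirr : ρ.IsIrreducible) (hd : Module.finrank ℂ V ≠ 1) (g : G) :
    ∑ z ∈ Finset.univ.filter (fun z : G => z ∈ commutator G), ρ.character (g * z)⁻¹ = 0 := by
  have h1 := congrArg (fun T : Module.End ℂ V => LinearMap.trace ℂ V (T * ρ g⁻¹))
    (sum_comm_zero ρ hirr hd)
  simp only [zero_mul, map_zero, Finset.sum_mul, map_sum, ← map_mul] at h1
  rw [← h1]
  refine Finset.sum_bij' (fun z _ => z⁻¹) (fun z _ => z⁻¹) (fun z hz => ?_) (fun z hz => ?_)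
    (fun z _ => inv_inv z) (fun z _ => inv_inv z) (fun z _ => ?_)
  · simp only [Finset.mem_filter, Finset.mem_univ, true_and] at hz ⊢
    exact Subgroup.inv_mem _ hz
  · simp only [Finset.mem_filter, Finset.mem_univ, true_and] at hz ⊢
    exact Subgroup.inv_mem _ hz
  · rw [mul_inv_rev]
    rfl

/-- one-dimensional characters. -/
lemma one_dim_mem (hd : Module.finrank ℂ V = 1) : ρ.character ∈ Ac G ∧
    symm G ρ.character ∈ Ac G := by
  -- the character is multiplicative
  have hsc : ∀ T : Module.End ℂ V, ∃ l : ℂ, T = l • 1 ∧ LinearMap.trace ℂ V T = l := by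
    intro T
    obtain ⟨v, hv, hw⟩ := finrank_eq_one_iff'.mp hd
    obtain ⟨l, hl⟩ := hw (T v)
    have h1 : T = l • 1 := by
      apply LinearMap.ext
      intro w
      obtain ⟨a, rfl⟩ := hw w
      rw [map_smul, ← hl]
      change a • l • v = l • a • v
      rw [smul_comm]
    refine ⟨l, h1, ?_⟩
    rw [h1, map_smul, LinearMap.trace_one, hd, Nat.cast_one, smul_eq_mul, mul_one]
  have hmul : ∀ a b : G, ρ.character (a * b) = ρ.character a * ρ.character b := by
    intro a b
    obtain ⟨l, hl1, hl2⟩ := hsc (ρ a)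
    obtain ⟨m, hm1, hm2⟩ := hsc (ρ b)
    have h1 : ρ.character a = l := hl2
    have h2 : ρ.character b = m := hm2
    change LinearMap.trace ℂ V (ρ (a * b)) = _
    rw [map_mul, hl1, smul_mul_assoc, one_mul, map_smul, hm2, h1, h2, smul_eq_mul]
  have hone : ρ.character 1 = 1 := by
    rw [Representation.char_one, hd, Nat.cast_one]
  let F : G →* ℂ := ⟨⟨ρ.character, hone⟩, hmul⟩
  have hF : ∀ z ∈ commutator G, F z = 1 := by
    intro z hz
    have h1 := Abelianization.commutator_subset_ker F.toHomUnits hz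
    rw [MonoidHom.mem_ker] at h1
    have h2 := congrArg Units.val h1
    exact h2
  have hFz : ∀ g, ∀ z ∈ commutator G, F (g * z) = F g := by
    intro g z hz
    rw [map_mul, hF z hz, mul_one]
  have hpow : ∀ (g : G) (j : ℕ), ∀ z ∈ commutator G, F ((g * z) ^ j) = F (g ^ j) := by
    intro g j z hz
    rw [map_pow, hFz g z hz, map_pow]
  have hinv : ∀ g, ∀ z ∈ commutator G, F (g * z)⁻¹ = F g⁻¹ := by
    intro g z hz
    rw [mul_inv_rev, map_mul, hF z⁻¹ (Subgroup.inv_mem _ hz), one_mul]
  refine ⟨fun j _ g z hz => ?_, fun j _ g z hz => ?_⟩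
  · change F _ - F _ = F _ - F _
    rw [hpow g j z hz, hFz g z hz]
  · change (F _ + F _) - (F _ + F _) = (F _ + F _) - (F _ + F _)
    rw [hpow g j z hz, hFz g z hz, hinv g z hz]
    have h1 : F ((g * z) ^ j)⁻¹ = F (g ^ j)⁻¹ := by
      rw [← inv_pow, ← inv_pow, map_pow, map_pow, hinv g z hz]
    rw [h1]

/-- the two alternatives. -/
theorem mem_Ac_iff (hirr : ρ.IsIrreducible) :
    ρ.character ∈ Ac G ↔ ρ.character ∈ Zc G ∨ Module.finrank ℂ V = 1 := by
  constructor
  · intro h
    by_cases hd : Module.finrank ℂ V = 1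
    · exact Or.inr hd
    · exact Or.inl (mem_Zc_of_sums h (fun g => char_sum_zero ρ hirr hd g))
  · rintro (h | h)
    · exact Zc_le_Ac h
    · exact (one_dim_mem ρ h).1

theorem symm_mem_Ac_iff (hirr : ρ.IsIrreducible) :
    symm G ρ.character ∈ Ac G ↔ symm G ρ.character ∈ Zc G ∨ Module.finrank ℂ V = 1 := by
  constructor
  · intro h
    by_cases hd : Module.finrank ℂ V = 1
    · exact Or.inr hd
    · refine Or.inl (mem_Zc_of_sums h (fun g => ?_))
      change ∑ z ∈ _, (ρ.character (g * z) + ρ.character (g * z)⁻¹) = 0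
      rw [Finset.sum_add_distrib, char_sum_zero ρ hirr hd g, char_inv_sum_zero ρ hirr hd g,
        add_zero]
  · rintro (h | h)
    · exact Zc_le_Ac h
    · exact (one_dim_mem ρ h).2

end rep

end Pool.Agent.N770.CP
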