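import Pool.Agent.N770.CP.Fields2
import Pool.Agent.N770.CP.Lin

/-!
# The criteria for a CM field
-/

set_option autoImplicit false

open scoped Classical
open NumberField

namespace Pool.Agent.N770.CP

open Pool.Agent.Results.MP_a2beea_nt.AveragedAndAbelian

variable {E K : Type} [Field E] [NumberField E] [Field K] [NumberField K]
variable [IsGalois ℚ K] [IsCMField E] [IsCMField K]

lemma a0_avg_iff (θ : E →ₐ[ℚ] K) {Φ : Finset (E →ₐ[ℚ] K)} (hΦ : IsCMType Φ) :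
    a0 θ Φ ∈ avgSpan K ↔
      toC (Pool.Agent.Q11.CZ.a0 θ Φ : (K ≃ₐ[ℚ] K) → ℚ) ∈ Zc (K ≃ₐ[ℚ] K) := by
  rw [toC_mem_Zc, ← a0_eq]
  constructor
  · intro h
    exact (((result K).1 _).mp h).2
  · intro h
    exact ((result K).1 _).mpr ⟨a0_cm θ hΦ, h⟩

lemma a0_ab_iff (θ : E →ₐ[ℚ] K) {Φ : Finset (E →ₐ[ℚ] K)} (hΦ : IsCMType Φ) :
    a0 θ Φ ∈ avgSpan K ⊔ abSpan K ↔
      toC (Pool.Agent.Q11.CZ.a0 θ Φ : (K ≃ₐ[ℚ] K) → ℚ) ∈ Ac (K ≃ₐ[ℚ] K) := by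
  rw [toC_mem_Ac, ← a0_eq]
  constructor
  · intro h
    exact (((result K).2.1 _).mp h).2
  · intro h
    exact ((result K).2.1 _).mpr ⟨a0_cm θ hΦ, h⟩

lemma height_avg_iff {Φ : Finset (E →ₐ[ℚ] K)} (hΦ : IsCMType Φ) :
    heightFn Φ ∈ avgSpan K ↔
      toC (Pool.Agent.Q11.CZ.T Φ : (K ≃ₐ[ℚ] K) → ℚ) ∈ Zc (K ≃ₐ[ℚ] K) := by
  rw [toC_mem_Zc, ← heightFn_eq]
  constructor
  · intro h
    exact (((result K).1 _).mp h).2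
  · intro h
    exact ((result K).1 _).mpr ⟨height_cm hΦ, h⟩

lemma height_ab_iff {Φ : Finset (E →ₐ[ℚ] K)} (hΦ : IsCMType Φ) :
    heightFn Φ ∈ avgSpan K ⊔ abSpan K ↔
      toC (Pool.Agent.Q11.CZ.T Φ : (K ≃ₐ[ℚ] K) → ℚ) ∈ Ac (K ≃ₐ[ℚ] K) := by
  rw [toC_mem_Ac, ← heightFn_eq]
  constructor
  · intro h
    exact (((result K).2.1 _).mp h).2
  · intro h
    exact ((result K).2.1 _).mpr ⟨height_cm hΦ, h⟩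

/-- the criterion for all `a0`. -/
theorem all_a0 (ψ : E →ₐ[ℚ] K) (M : Submodule ℂ ((K ≃ₐ[ℚ] K) → ℂ)) (hM : Zc (K ≃ₐ[ℚ] K) ≤ M)
    (S : Submodule ℚ ((K ≃ₐ[ℚ] K) → ℚ))
    (hS : ∀ (θ : E →ₐ[ℚ] K) (Φ : Finset (E →ₐ[ℚ] K)), IsCMType Φ →
      (a0 θ Φ ∈ S ↔ toC (Pool.Agent.Q11.CZ.a0 θ Φ : (K ≃ₐ[ℚ] K) → ℚ) ∈ M)) :
    (∀ Φ : Finset (E →ₐ[ℚ] K), IsCMType Φ → ∀ θ : E →ₐ[ℚ] K, a0 θ Φ ∈ S) ↔
      ∀ χ : (K ≃ₐ[ℚ] K) → ℂ, Good (conjugation K) ψ χ → χ ∈ M := by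
  have h1 : (fun _ => (1 : ℂ)) ∈ M := hM (fun _ _ _ => rfl)
  have hcrit := fun θ : E →ₐ[ℚ] K => crit_a0 (G := K ≃ₐ[ℚ] K) (X := E →ₐ[ℚ] K)
    (c := conjugation K) Pool.Agent.Q11.CZ.conj_comm Pool.Agent.Q11.CZ.conj_mul_self
    conj_free θ M h1
  constructor
  · intro hall
    exact (hcrit ψ).mp (fun Φ hΦ => (hS ψ Φ hΦ).mp (hall Φ hΦ ψ))
  · intro hall Φ hΦ θ
    refine (hS θ Φ hΦ).mpr ((hcrit θ).mpr (fun χ hχ => hall χ ?_) Φ hΦ)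
    obtain ⟨k, hk⟩ := Pool.Agent.Q11.CZ.exists_lift ψ θ
    have h2 : θ = k • ψ := hk.symm
    rw [h2] at hχ
    exact good_base ψ k hχ

/-- the criterion for all heights. -/
theorem all_height (ψ : E →ₐ[ℚ] K) (M : Submodule ℂ ((K ≃ₐ[ℚ] K) → ℂ))
    (hM : Zc (K ≃ₐ[ℚ] K) ≤ M) (S : Submodule ℚ ((K ≃ₐ[ℚ] K) → ℚ))
    (hS : ∀ (Φ : Finset (E →ₐ[ℚ] K)), IsCMType Φ →
      (heightFn Φ ∈ S ↔ toC (Pool.Agent.Q11.CZ.T Φ : (K ≃ₐ[ℚ] K) → ℚ) ∈ M)) :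
    (∀ Φ : Finset (E →ₐ[ℚ] K), IsCMType Φ → heightFn Φ ∈ S) ↔
      ∀ χ : (K ≃ₐ[ℚ] K) → ℂ, Good (conjugation K) ψ χ → symm (K ≃ₐ[ℚ] K) χ ∈ M := by
  have hcrit := crit_T (G := K ≃ₐ[ℚ] K) (X := E →ₐ[ℚ] K)
    (c := conjugation K) Pool.Agent.Q11.CZ.conj_comm Pool.Agent.Q11.CZ.conj_mul_self
    conj_free ψ M hM
  constructor
  · intro hall
    exact hcrit.mp (fun Φ hΦ => (hS Φ hΦ).mp (hall Φ hΦ))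
  · intro hall Φ hΦ
    exact (hS Φ hΦ).mpr (hcrit.mpr hall Φ hΦ)

end Pool.Agent.N770.CP
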