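import Pool.Agent.N770.CP.Sharp2

/-!
# Characters of a finite group: class functions are combinations of irreducible characters
-/

set_option autoImplicit false

open scoped Classical

namespace Pool.Agent.N770.CP

variable {G : Type} [Group G] [Fintype G]

lemma cardC_ne : (Nat.card G : ℂ) ≠ 0 := by
  exact_mod_cast Nat.card_pos.ne'

/-- The characters of the irreducible complex representations. -/
def IrrC (G : Type) [Group G] : Set (G → ℂ) :=
  {χ | ∃ (V : Type) (_ : AddCommGroup V) (_ : Module ℂ V) (_ : FiniteDimensional ℂ V)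
    (ρ : Representation ℂ G V), ρ.IsIrreducible ∧ χ = ρ.character}

lemma nontrivial_of_irr {V : Type} [AddCommGroup V] [Module ℂ V] (ρ : Representation ℂ G V)
    (h : ρ.IsIrreducible) : Nontrivial V := by
  by_contra hn
  rw [not_nontrivial_iff_subsingleton] at hn
  have h1 := h.toNontrivial
  obtain ⟨a, b, hab⟩ := h1
  apply hab
  apply Subrepresentation.toSubmodule_injective
  exact Subsingleton.elim _ _

/-- Schur's lemma. -/
lemma schur {V : Type} [AddCommGroup V] [Module ℂ V] [FiniteDimensional ℂ V]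
    (ρ : Representation ℂ G V) (h : ρ.IsIrreducible) (T : Module.End ℂ V)
    (hT : ∀ g, T * ρ g = ρ g * T) : ∃ l : ℂ, T = l • (1 : Module.End ℂ V) ∧
      l * Module.finrank ℂ V = LinearMap.trace ℂ V T := by
  have := h
  obtain ⟨l, hl⟩ := (Representation.IsIrreducible.algebraMap_intertwiningMap_bijective_of_isAlgClosed
    (ρ := ρ)).2 ⟨T, hT⟩
  have hl2 : T = l • (1 : Module.End ℂ V) := by
    have h1 := congrArg (fun S : ρ.IntertwiningMap ρ => S.toLinearMap) hl
    exact h1.symm
  refine ⟨l, hl2, ?_⟩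
  rw [hl2, map_smul, LinearMap.trace_one, smul_eq_mul]

lemma sum_comm_conj {V : Type} [AddCommGroup V] [Module ℂ V]
    (ρ : Representation ℂ G V) (f : G → ℂ) (hf : ∀ a x, f (x * a * x⁻¹) = f a) (g : G) :
    (∑ x, f x • ρ x) * ρ g = ρ g * ∑ x, f x • ρ x := by
  rw [Finset.sum_mul, Finset.mul_sum]
  rw [← Equiv.sum_comp (MulAut.conj g).toEquiv]
  refine Finset.sum_congr rfl fun x _ => ?_
  have e1 : (MulAut.conj g).toEquiv x = g * x * g⁻¹ := rfl
  rw [e1, hf, smul_mul_assoc, mul_smul_comm, ← map_mul, ← map_mul]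
  congr 2
  group

/-- a class function orthogonal to the irreducible characters acts as zero. -/
lemma act_zero (f : G → ℂ) (hf : ∀ a x, f (x * a * x⁻¹) = f a)
    (h : ∀ χ ∈ IrrC G, ∑ g, f g * χ g = 0) :
    ∀ (n : ℕ) (V : Type) [AddCommGroup V] [Module ℂ V] [FiniteDimensional ℂ V]
      (ρ : Representation ℂ G V), Module.finrank ℂ V = n → ∑ g, f g • ρ g = 0 := by
  intro n
  induction n using Nat.strong_induction_on with
  | _ n ih =>
    intro V _ _ _ ρ hn
    have : NeZero (Nat.card G : ℂ) := ⟨cardC_ne⟩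
    by_cases hirr : ρ.IsIrreducible
    · obtain ⟨l, hl1, hl2⟩ := schur ρ hirr (∑ g, f g • ρ g) (sum_comm_conj ρ f hf)
      have h1 : LinearMap.trace ℂ V (∑ g, f g • ρ g) = 0 := by
        rw [map_sum, ← h ρ.character ⟨V, _, _, inferInstance, ρ, hirr, rfl⟩]
        refine Finset.sum_congr rfl fun g _ => ?_
        rw [map_smul]
        rfl
      have hnt := nontrivial_of_irr ρ hirr
      rw [h1] at hl2
      have h3 : (Module.finrank ℂ V : ℂ) ≠ 0 := by
        exact_mod_cast (Module.finrank_pos (R := ℂ) (M := V)).ne'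
      have h4 : l = 0 := (mul_eq_zero.mp hl2).resolve_right h3
      rw [hl1, h4, zero_smul]
    · by_cases hsub : Subsingleton V
      · apply LinearMap.ext
        intro v
        exact Subsingleton.elim _ _
      rw [not_subsingleton_iff_nontrivial] at hsub
      -- a proper subrepresentation
      obtain ⟨W, hW1, hW2⟩ : ∃ W : Subrepresentation ρ, W ≠ ⊥ ∧ W ≠ ⊤ := by
        by_contra hcon
        push Not at hcon
        apply hirr
        have hne : (⊥ : Subrepresentation ρ) ≠ ⊤ := by
          intro h0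
          have h1 : (⊥ : Submodule ℂ V) = ⊤ := congrArg Subrepresentation.toSubmodule h0
          exact bot_ne_top h1
        exact { exists_pair_ne := ⟨⊥, ⊤, hne⟩
                eq_bot_or_eq_top := fun W => by
                  by_cases hW : W = ⊥
                  · exact Or.inl hW
                  · exact Or.inr (hcon W hW) }
      obtain ⟨W', hW'⟩ := exists_isCompl W
      have hlt : ∀ W : Subrepresentation ρ, W ≠ ⊤ → Module.finrank ℂ W.toSubmodule < n := by
        intro W hW
        rw [← hn]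
        refine Submodule.finrank_lt (fun h0 => hW ?_)
        apply Subrepresentation.toSubmodule_injective
        exact h0
      have hW2' : W' ≠ ⊤ := by
        intro h0
        apply hW1
        have h1 := hW'.inf_eq_bot
        rw [h0, inf_top_eq] at h1
        exact h1
      have hz : ∀ W : Subrepresentation ρ, W ≠ ⊤ → ∀ w ∈ W.toSubmodule,
          (∑ g, f g • ρ g) w = 0 := by
        intro W hW w hw
        have h1 := ih _ (hlt W hW) W.toSubmodule W.toRepresentation rfl
        have h2 := congrArg (fun T : Module.End ℂ W.toSubmodule => ((T ⟨w, hw⟩ : W.toSubmodule) : V))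
          h1
        simp only [LinearMap.zero_apply, ZeroMemClass.coe_zero, LinearMap.sum_apply,
          LinearMap.smul_apply, Submodule.coe_sum, Submodule.coe_smul] at h2
        rw [LinearMap.sum_apply]
        exact h2
      apply LinearMap.ext
      intro v
      have hv : v ∈ W.toSubmodule ⊔ W'.toSubmodule := by
        have h1 := congrArg Subrepresentation.toSubmodule hW'.sup_eq_top
        rw [Subrepresentation.toSubmodule_sup] at h1
        rw [h1]
        exact Submodule.mem_top
      obtain ⟨w, hw, w', hw', rfl⟩ := Submodule.mem_sup.mp hv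
      rw [map_add, hz W hW2 w hw, hz W' hW2' w' hw', add_zero, LinearMap.zero_apply]

/-- the regular representation on the functions. -/
def regRep (G : Type) [Group G] : Representation ℂ G (G → ℂ) where
  toFun g := LinearMap.funLeft ℂ ℂ (fun x => g⁻¹ * x)
  map_one' := by
    apply LinearMap.ext
    intro φ
    funext x
    rw [LinearMap.funLeft_apply, inv_one, one_mul]
    rfl
  map_mul' a b := by
    apply LinearMap.ext
    intro φ
    funext x
    change φ ((a * b)⁻¹ * x) = φ (b⁻¹ * (a⁻¹ * x))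
    rw [mul_inv_rev, mul_assoc]

/-- a class function orthogonal to the irreducible characters is zero. -/
theorem eq_zero_of_orth (f : G → ℂ) (hf : ∀ a x, f (x * a * x⁻¹) = f a)
    (h : ∀ χ ∈ IrrC G, ∑ g, f g * χ g = 0) : f = 0 := by
  have h1 := act_zero f hf h _ (G → ℂ) (regRep G) rfl
  funext g
  have h2 := congrArg (fun T : Module.End ℂ (G → ℂ) => T (Pi.single 1 1) g) h1
  simp only [LinearMap.sum_apply, LinearMap.smul_apply, Finset.sum_apply, LinearMap.zero_apply,
    Pi.zero_apply, Pi.smul_apply, smul_eq_mul] at h2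
  rw [Finset.sum_eq_single g] at h2
  · have h3 : (regRep G) g (Pi.single 1 1) g = (1 : ℂ) := by
      change (Pi.single (1 : G) (1 : ℂ) : G → ℂ) (g⁻¹ * g) = 1
      rw [inv_mul_cancel, Pi.single_eq_same]
    rw [h3, mul_one] at h2
    exact h2
  · intro u _ hu
    have h3 : (regRep G) u (Pi.single 1 1) g = (0 : ℂ) := by
      change (Pi.single (1 : G) (1 : ℂ) : G → ℂ) (u⁻¹ * g) = 0
      rw [Pi.single_eq_of_ne]
      intro h0
      exact hu (inv_mul_eq_one.mp h0)
    rw [h3, mul_zero]
  · intro h0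
    exact absurd (Finset.mem_univ _) h0

lemma irrC_conj {χ : G → ℂ} (hχ : χ ∈ IrrC G) (g h : G) : χ (h * g * h⁻¹) = χ g := by
  obtain ⟨V, _, _, _, ρ, -, rfl⟩ := hχ
  exact ρ.char_conj g h

lemma pair_self {χ : G → ℂ} (hχ : χ ∈ IrrC G) :
    ∑ g : G, χ g * χ g⁻¹ = (Nat.card G : ℂ) := by
  obtain ⟨V, _, _, _, ρ, hρ, rfl⟩ := hχ
  have : Invertible (Nat.card G : ℂ) := invertibleOfNonzero cardC_ne
  have h := Representation.char_orthonormal ρ ρ
  rw [if_pos ⟨Representation.Equiv.refl ρ⟩] at h
  have h0 := cardC_ne (G := G)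
  field_simp at h
  exact h

lemma pair_ne {χ χ' : G → ℂ} (hχ : χ ∈ IrrC G) (hχ' : χ' ∈ IrrC G) (hne : χ ≠ χ') :
    ∑ g : G, χ g * χ' g⁻¹ = 0 := by
  obtain ⟨V, _, _, _, ρ, hρ, rfl⟩ := hχ
  obtain ⟨V', _, _, _, σ, hσ, rfl⟩ := hχ'
  have : Invertible (Nat.card G : ℂ) := invertibleOfNonzero cardC_ne
  have h := Representation.char_orthonormal ρ σ
  rw [if_neg] at h
  · rcases mul_eq_zero.mp h with h1 | h1
    · exact absurd h1 (inv_ne_zero cardC_ne)
    · exact h1
  · rintro ⟨e⟩
    exact hne (Representation.char_iso e).symm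

lemma irr_finite : (IrrC G).Finite := by
  have hli : LinearIndependent ℂ (fun χ : IrrC G => (χ : G → ℂ)) := by
    rw [linearIndependent_iff']
    intro s c hc i hi
    have h1 : ∑ g : G, (∑ j ∈ s, c j • (j : G → ℂ)) g * (i : G → ℂ) g⁻¹ = 0 := by
      rw [hc]; simp
    have h2 : ∑ g : G, (∑ j ∈ s, c j • (j : G → ℂ)) g * (i : G → ℂ) g⁻¹
        = ∑ j ∈ s, c j * ∑ g : G, (j : G → ℂ) g * (i : G → ℂ) g⁻¹ := by
      simp_rw [Finset.sum_apply, Pi.smul_apply, smul_eq_mul, Finset.sum_mul, Finset.mul_sum]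
      rw [Finset.sum_comm]
      refine Finset.sum_congr rfl fun j _ => Finset.sum_congr rfl fun g _ => by ring
    rw [h2, Finset.sum_eq_single i] at h1
    · rw [pair_self i.2] at h1
      exact (mul_eq_zero.mp h1).resolve_right cardC_ne
    · intro j _ hj
      rw [pair_ne j.2 i.2 (fun h => hj (Subtype.ext h)), mul_zero]
    · intro h; exact absurd hi h
  have : Finite (IrrC G) := hli.finite
  exact Set.toFinite _

/-- **Class functions are combinations of the irreducible characters.** -/
theorem expansion (f : G → ℂ) (hf : ∀ a x, f (x * a * x⁻¹) = f a) :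
    (Nat.card G : ℂ) • f = ∑ χ ∈ (irr_finite (G := G)).toFinset, (∑ u, f u * χ u⁻¹) • χ := by
  set F : Finset (G → ℂ) := (irr_finite (G := G)).toFinset with hF
  have hmem : ∀ χ, χ ∈ F ↔ χ ∈ IrrC G := fun χ => Set.Finite.mem_toFinset _
  -- orthogonality to the functions `χ(u⁻¹)`; we use the inverse function
  set D : G → ℂ := (Nat.card G : ℂ) • f - ∑ χ ∈ F, (∑ u, f u * χ u⁻¹) • χ with hD
  have hDc : ∀ a x, D (x * a * x⁻¹) = D a := by
    intro a x
    rw [hD]
    simp only [Pi.sub_apply, Pi.smul_apply, smul_eq_mul, Finset.sum_apply]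
    rw [hf]
    congr 1
    refine Finset.sum_congr rfl fun χ hχ => ?_
    rw [irrC_conj ((hmem χ).mp hχ)]
  have hDinv : ∀ χ ∈ IrrC G, ∑ u, D u * χ u⁻¹ = 0 := by
    intro χ hχ
    rw [hD]
    simp only [Pi.sub_apply, Pi.smul_apply, smul_eq_mul, Finset.sum_apply, sub_mul,
      Finset.sum_sub_distrib, Finset.sum_mul]
    rw [Finset.sum_comm (s := Finset.univ) (t := F), Finset.sum_eq_single χ]
    · have h1 : ∑ u, (Nat.card G : ℂ) * f u * χ u⁻¹ = Nat.card G * ∑ u, f u * χ u⁻¹ := by
        rw [Finset.mul_sum]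
        exact Finset.sum_congr rfl fun u _ => by ring
      have h2 : ∑ u : G, (∑ v : G, f v * χ v⁻¹ * χ u * χ u⁻¹) =
          (∑ v, f v * χ v⁻¹) * ∑ u, χ u * χ u⁻¹ := by
        rw [Finset.mul_sum]
        refine Finset.sum_congr rfl fun u _ => ?_
        rw [Finset.sum_mul]
        exact Finset.sum_congr rfl fun v _ => by ring
      rw [h1, h2, pair_self hχ]
      ring
    · intro χ' hχ' hne
      have h2 : ∑ u : G, (∑ v : G, f v * χ' v⁻¹ * χ' u * χ u⁻¹) =
          (∑ v, f v * χ' v⁻¹) * ∑ u, χ' u * χ u⁻¹ := by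
        rw [Finset.mul_sum]
        refine Finset.sum_congr rfl fun u _ => ?_
        rw [Finset.sum_mul]
        exact Finset.sum_congr rfl fun v _ => by ring
      rw [h2, pair_ne ((hmem χ').mp hχ') hχ hne, mul_zero]
    · intro h
      exact absurd ((hmem χ).mpr hχ) h
  have hD' : (fun u => D u⁻¹) = 0 := by
    refine eq_zero_of_orth _ (fun a x => ?_) (fun χ hχ => ?_)
    · have h1 : (x * a * x⁻¹)⁻¹ = x * a⁻¹ * x⁻¹ := by group
      rw [h1, hDc]
    · rw [← hDinv χ hχ, ← Equiv.sum_comp (Equiv.inv G)]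
      refine Finset.sum_congr rfl fun u _ => ?_
      rw [Equiv.inv_apply, inv_inv]
  have hD0 : D = 0 := by
    funext u
    have := congrFun hD' u⁻¹
    simpa using this
  rw [hD, sub_eq_zero] at hD0
  exact hD0

end Pool.Agent.N770.CP
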