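import Pool.Agent.N770.CP.Core2

/-!
# The condition on the automorphisms is necessary: the group theory
-/

set_option autoImplicit false

open scoped Classical

namespace Pool.Agent.N770.CP

open Pool.Agent.Q11.CZ

variable {G : Type} [Group G] [Fintype G] {X : Type} [MulAction G X]
variable {A : Type} [Group A] {r : A → X → X}

section

variable (hr1 : ∀ x, r 1 x = x) (hrm : ∀ a b x, r (a * b) x = r a (r b x))
  (hrg : ∀ (g : G) a x, g • r a x = r a (g • x))
variable {c : G} (hc : ∀ g, c * g = g * c) (hc2 : c * c = 1) (hc1 : c ≠ 1)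
  {z : A} (hz : ∀ a, z * a = a * z) (hz2 : z * z = 1) (hzc : ∀ x, r z x = c • x)

/-- the elements of `G` which act at `x` as the element `a` of `A`. -/
noncomputable def Fa (r : A → X → X) (x : X) (a : A) : Finset G :=
  Finset.univ.filter fun g : G => g • x = r a x

/-- the contribution of `h`. -/
noncomputable def wb (r : A → X → X) (z : A) (x : X) (a b : A) (h : G) : ℤ :=
  (((Fa r x a : Finset G).filter fun g : G => g • (h • x) = r b (h • x)).card : ℤ) -
    ((Fa r x a : Finset G).filter fun g : G => g • (h • x) = r (z * b) (h • x)).card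

include hrg in
lemma cnt_eq (x : X) (b : A) (g : G) :
    (cnt x (r b x) g : ℤ) = ∑ h : G, if g • (h • x) = r b (h • x) then (1 : ℤ) else 0 := by
  unfold cnt
  rw [Finset.card_filter, Nat.cast_sum]
  refine Finset.sum_congr rfl (fun h _ => ?_)
  have h1 : (h⁻¹ * g * h) • x = r b x ↔ g • (h • x) = r b (h • x) := by
    rw [mul_assoc, mul_smul, inv_smul_eq_iff, mul_smul, hrg]
  by_cases h2 : g • (h • x) = r b (h • x)
  · rw [if_pos h2, if_pos (h1.mpr h2)]
    rfl
  · rw [if_neg h2, if_neg (fun h3 => h2 (h1.mp h3))]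
    rfl

include hrg in
lemma sum_dd (x : X) (a b : A) :
    ∑ g ∈ (Fa r x a : Finset G), dd r z x b g = ∑ h : G, wb r z x a b h := by
  unfold dd wb
  simp only [cnt_eq hrg]
  rw [Finset.sum_sub_distrib, Finset.sum_sub_distrib, Finset.sum_comm]
  rw [Finset.sum_comm (s := (Fa r x a : Finset G)) (t := Finset.univ)
    (f := fun g h => if g • (h • x) = r (z * b) (h • x) then (1 : ℤ) else 0)]
  congr 1
  · refine Finset.sum_congr rfl (fun h _ => ?_)
    rw [Finset.card_filter, Nat.cast_sum]
    refine Finset.sum_congr rfl (fun g _ => ?_)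
    split_ifs <;> rfl
  · refine Finset.sum_congr rfl (fun h _ => ?_)
    rw [Finset.card_filter, Nat.cast_sum]
    refine Finset.sum_congr rfl (fun g _ => ?_)
    split_ifs <;> rfl

include hrg hc hc2 hrm hzc in
lemma wb_unlinked {x : X} {a b : A} {h k : G} (hk : k • x = x)
    (hy : k • (h • x) = c • (h • x)) : wb r z x a b h = 0 := by
  unfold wb
  rw [sub_eq_zero]
  congr 1
  refine Finset.card_bijective (fun g => g * k) (Group.mulRight_bijective k) (fun g => ?_)
  unfold Fa
  simp only [Finset.mem_filter, Finset.mem_univ, true_and]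
  have h1 : (g * k) • x = g • x := by rw [mul_smul, hk]
  have h2 : (g * k) • (h • x) = c • (g • (h • x)) := by
    rw [mul_smul, hy, ← mul_smul, ← hc, mul_smul]
  have h3 : ∀ u : X, c • (c • u) = u := fun u => by rw [← mul_smul, hc2, one_smul]
  rw [h1, h2]
  constructor
  · rintro ⟨e1, e2⟩
    exact ⟨e1, by rw [e2, hrm, hzc]⟩
  · rintro ⟨e1, e2⟩
    refine ⟨e1, ?_⟩
    rw [hrm, hzc] at e2
    exact (MulAction.injective c) e2

include hr1 hrm hrg in
lemma wb_linked (hfree : ∀ (a : A) (x : X), r a x = x → a = 1) {x : X} {a b t : A} {h : G}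
    (ht : h • x = r t x) : wb r z x a b h =
      ((Fa r x a : Finset G).card : ℤ) * ((if t * a = b * t then 1 else 0) -
        if t * a = z * b * t then 1 else 0) := by
  have hinj : ∀ u v : A, r u x = r v x → u = v := by
    intro u v huv
    have h1 : r (v⁻¹ * u) x = x := by
      rw [hrm, huv, ← hrm, inv_mul_cancel, hr1]
    have h2 := hfree _ _ h1
    rw [inv_mul_eq_one] at h2
    exact h2.symm
  have key : ∀ b : A, ((Fa r x a : Finset G).filter fun g : G => g • (h • x) = r b (h • x)).card =
      (Fa r x a : Finset G).card * if t * a = b * t then 1 else 0 := by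
    intro b
    split_ifs with h1
    · rw [mul_one]
      congr 1
      rw [Finset.filter_eq_self]
      intro g hg
      unfold Fa at hg
      simp only [Finset.mem_filter, Finset.mem_univ, true_and] at hg
      rw [ht, hrg, hg, ← hrm, ← hrm, h1]
    · rw [mul_zero, Finset.card_eq_zero, Finset.filter_eq_empty_iff]
      intro g hg h2
      unfold Fa at hg
      simp only [Finset.mem_filter, Finset.mem_univ, true_and] at hg
      rw [ht, hrg, hg, ← hrm, ← hrm] at h2
      exact h1 (hinj _ _ h2)
  unfold wb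
  rw [key, key]
  push_cast
  ring

include hr1 hrm hrg hc hc2 hzc in
/-- the main step. -/
lemma conj_of_eq [MulAction.IsPretransitive G X] (hfree : ∀ (a : A) (x : X), r a x = x → a = 1)
    (x : X) (hlink : ∀ y : X, (∃ k : G, k • x = x ∧ k • y = c • y) ∨ ∃ a : A, y = r a x)
    {a b : A} (ha : ¬ IsConj (z * a) a) (hab : ∀ g : G, dd r z x a g = dd r z x b g) :
    IsConj a b := by
  by_contra hcon
  have hF : 0 < (Fa r x a : Finset G).card := by
    obtain ⟨g, hg⟩ := MulAction.exists_smul_eq G x (r a x)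
    refine Finset.card_pos.mpr ⟨g, ?_⟩
    unfold Fa
    simpa using hg
  have h1 : ∀ h : G, 0 ≤ wb r z x a a h := by
    intro h
    rcases hlink (h • x) with ⟨k, hk1, hk2⟩ | ⟨t, ht⟩
    · rw [wb_unlinked hrm hrg hc hc2 hzc hk1 hk2]
    · rw [wb_linked hr1 hrm hrg hfree ht]
      have h2 : ¬ t * a = z * a * t := by
        intro h2
        apply ha
        refine (isConj_iff.mpr ⟨t, ?_⟩ : IsConj a (z * a)).symm
        rw [h2, mul_inv_cancel_right]
      rw [if_neg h2, sub_zero]
      split_ifs
      · rw [mul_one]; positivity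
      · rw [mul_zero]
  have h2 : 0 < wb r z x a a (1 : G) := by
    have h3 : (1 : G) • x = r (1 : A) x := by rw [one_smul, hr1]
    rw [wb_linked hr1 hrm hrg hfree h3]
    have h4 : ¬ (1 : A) * a = z * a * 1 := by
      rw [one_mul, mul_one]
      intro h4
      apply ha
      rw [← h4]
    rw [if_neg h4, if_pos (by rw [one_mul, mul_one]), sub_zero, mul_one]
    exact_mod_cast hF
  have h3 : 0 < ∑ h : G, wb r z x a a h :=
    Finset.sum_pos' (fun h _ => h1 h) ⟨1, Finset.mem_univ _, h2⟩
  have h4 : ∑ h : G, wb r z x a b h ≤ 0 := by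
    refine Finset.sum_nonpos (fun h _ => ?_)
    rcases hlink (h • x) with ⟨k, hk1, hk2⟩ | ⟨t, ht⟩
    · rw [wb_unlinked hrm hrg hc hc2 hzc hk1 hk2]
    · rw [wb_linked hr1 hrm hrg hfree ht]
      have h5 : ¬ t * a = b * t := by
        intro h5
        apply hcon
        refine isConj_iff.mpr ⟨t, ?_⟩
        rw [h5, mul_inv_cancel_right]
      rw [if_neg h5, zero_sub]
      split_ifs
      · rw [mul_neg, mul_one, neg_nonpos]; positivity
      · rw [neg_zero, mul_zero]
  rw [← sum_dd hrg (z := z) x a a] at h3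
  rw [← sum_dd hrg (z := z) x a b, ← Finset.sum_congr rfl (fun g _ => hab g)] at h4
  exact absurd h3 (not_lt.mpr h4)

include hr1 hrm hrg hc hc2 hc1 hz hz2 hzc in
/-- **Necessity.**  If the class functions of all CM types are constant on the generators of cyclic
groups, the condition `Rat` holds. -/
theorem rat_of_zinv [Fintype X] [Fintype A] [MulAction.IsPretransitive G X]
    (hfree : ∀ (a : A) (x : X), r a x = x → a = 1) (hcf : ∀ x : X, c • x ≠ x)
    (x : X) (hlink : ∀ y : X, (∃ k : G, k • x = x ∧ k • y = c • y) ∨ ∃ a : A, y = r a x)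
    (hall : ∀ Φ : Finset X, IsHalf c Φ → ZInv (a0 x Φ : G → ℚ)) : Rat A z := by
  -- the differences are constant on the generators of cyclic groups
  have hG0 : (Fintype.card G : ℚ) ≠ 0 := card_ne
  have hδ : ∀ (y : X) (g g' : G), Subgroup.zpowers g = Subgroup.zpowers g' →
      (cnt x y g : ℤ) - cnt x (c • y) g = cnt x y g' - cnt x (c • y) g' := by
    intro y g g' hgg
    obtain ⟨Φ₀, hΦ₀⟩ := exists_half (X := X) hc2 hcf
    rw [mem_halves] at hΦ₀
    -- a half-system containing `y`
    obtain ⟨Φ, hΦ, hy⟩ : ∃ Φ : Finset X, IsHalf c Φ ∧ y ∈ Φ := by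
      by_cases hy : y ∈ Φ₀
      · exact ⟨Φ₀, hΦ₀, hy⟩
      · refine ⟨_, isHalf_toggle hc2 hΦ₀ y, ?_⟩
        rw [Finset.mem_symmDiff]
        right
        exact ⟨Finset.mem_insert_self _ _, hy⟩
    have hcy : c • y ∉ Φ := fun h => (hΦ y).mp h hy
    have key : ∀ g : G, (a0 x Φ g : ℚ) - a0 x (symmDiff Φ {y, c • y}) g =
        ((cnt x y g : ℚ) - cnt x (c • y) g) / Fintype.card G := by
      intro g
      rw [a0_cnt, a0_cnt, ← sub_div]
      congr 1
      have e1 : symmDiff Φ {y, c • y} = insert (c • y) (Φ.erase y) := by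
        ext u
        simp only [Finset.mem_symmDiff, Finset.mem_insert, Finset.mem_singleton,
          Finset.mem_erase]
        constructor
        · rintro (⟨h1, h2⟩ | ⟨h1 | h1, h2⟩)
          · right
            exact ⟨fun h => h2 (Or.inl h), h1⟩
          · exact absurd (h1 ▸ hy) h2
          · exact Or.inl h1
        · rintro (h1 | ⟨h1, h2⟩)
          · right
            exact ⟨Or.inr h1, h1 ▸ hcy⟩
          · left
            refine ⟨h2, ?_⟩
            rintro (h3 | h3)
            · exact h1 h3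
            · exact hcy (h3 ▸ h2)
      have e2 : c • y ∉ Φ.erase y := fun h => hcy (Finset.mem_of_mem_erase h)
      rw [e1, Finset.sum_insert e2]
      have e3 := Finset.add_sum_erase Φ (fun u => (cnt x u g : ℚ)) hy
      rw [← e3]
      ring
    have h1 := hall Φ hΦ g g' hgg
    have h2 := hall _ (isHalf_toggle hc2 hΦ y) g g' hgg
    have h3 := key g
    rw [h1, h2, key g', div_left_inj' hG0] at h3
    exact_mod_cast h3.symm
  intro a
  by_cases ha : IsConj (z * a) a
  · exact Or.inl ha
  right
  intro a' ha'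
  obtain ⟨j, hj, hgj⟩ : ∃ j : ℕ, j.Coprime (Nat.card (G × A)) ∧ a' = a ^ j := by
    have h1 : Subgroup.zpowers ((1, a) : G × A) = Subgroup.zpowers ((1, a') : G × A) := by
      have h2 : ∀ a : A, Subgroup.zpowers ((1, a) : G × A) =
          (Subgroup.zpowers a).map (MonoidHom.inr G A) := by
        intro a
        rw [MonoidHom.map_zpowers]
        rfl
      rw [h2, h2, ha']
    obtain ⟨u, hu⟩ := exists_unit h1
    exact ⟨_, ZMod.val_coe_unit_coprime u, congrArg Prod.snd hu⟩
  have hjG : j.Coprime (Nat.card G) := by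
    refine Nat.Coprime.coprime_dvd_right ?_ hj
    rw [Nat.card_prod]
    exact Dvd.intro _ rfl
  refine (conj_of_eq hr1 hrm hrg hc hc2 hzc hfree x hlink ha (fun g' => ?_)).symm
  -- write `g'` as a `j`-th power
  obtain ⟨i, hi⟩ : ∃ i : ℕ, (g' ^ i) ^ j = g' := by
    have h2 : g' ∈ Subgroup.zpowers (g' ^ j) := by
      rw [zpowers_pow hjG g']
      exact Subgroup.mem_zpowers _
    rw [← mem_powers_iff_mem_zpowers, Submonoid.mem_powers_iff] at h2
    obtain ⟨i, hi⟩ := h2
    exact ⟨i, by rw [← pow_mul, mul_comm, pow_mul]; exact hi⟩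
  have h1 := dd_pow hr1 hrm hrg hc2 hc1 hz hz2 x a (g' ^ i) hj
  rw [hi, ← hgj] at h1
  have h2 : dd r z x a (g' ^ i) = dd r z x a g' := by
    unfold dd
    rw [hrm, hzc]
    refine hδ _ _ _ ?_
    conv_rhs => rw [← hi]
    exact (zpowers_pow hjG (g' ^ i)).symm
  rw [h1, h2]

end

end Pool.Agent.N770.CP
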