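import Pool.Agent.N770.CP.Rep

/-!
# The span of the differences is the span of the odd irreducible characters which occur
-/

set_option autoImplicit false

open scoped Classical

namespace Pool.Agent.N770.CP

open Pool.Agent.Q11.CZ

variable {G : Type} [Group G] [Fintype G] {X : Type} [MulAction G X]

/-- The character of an odd irreducible representation with a nonzero vector fixed by the stabilizer of
`x`. -/
def Good (c : G) (x : X) (χ : G → ℂ) : Prop :=
  ∃ (V : Type) (_ : AddCommGroup V) (_ : Module ℂ V) (_ : FiniteDimensional ℂ V)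
    (ρ : Representation ℂ G V), ρ.IsIrreducible ∧ ρ c = -1 ∧
      (∃ v : V, v ≠ 0 ∧ ∀ g : G, g • x = x → ρ g v = v) ∧ χ = ρ.character

/-- the difference function. -/
noncomputable def del (c : G) (x y : X) : G → ℂ := fun g => (cnt x y g : ℂ) - cnt x (c • y) g

lemma cnt_class (x y : X) (g u : G) : cnt x y (u * g * u⁻¹) = cnt x y g := by
  unfold cnt
  refine Finset.card_bijective (fun h => u⁻¹ * h) (Group.mulLeft_bijective u⁻¹) (fun h => ?_)
  simp only [Finset.mem_filter, Finset.mem_univ, true_and]
  have h1 : (u⁻¹ * h)⁻¹ * g * (u⁻¹ * h) = h⁻¹ * (u * g * u⁻¹) * h := by group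
  rw [h1]

lemma del_class (c : G) (x y : X) (g u : G) : del c x y (u * g * u⁻¹) = del c x y g := by
  unfold del
  rw [cnt_class, cnt_class]

lemma cntC (x y : X) (g : G) :
    (cnt x y g : ℂ) = ∑ h : G, if (h⁻¹ * g * h) • x = y then (1 : ℂ) else 0 := by
  unfold cnt
  rw [Finset.card_filter]
  push_cast
  rfl

lemma pair_cnt (χ : G → ℂ) (hχ : ∀ g h, χ (h * g * h⁻¹) = χ g) (x y : X) :
    ∑ g, (cnt x y g : ℂ) * χ g⁻¹ =
      Fintype.card G * ∑ u ∈ Finset.univ.filter (fun u : G => u • x = y), χ u⁻¹ := by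
  simp only [cntC, Finset.sum_mul]
  rw [Finset.sum_comm]
  have h2 : ∀ h : G, ∑ g : G, (if (h⁻¹ * g * h) • x = y then (1 : ℂ) else 0) * χ g⁻¹ =
      ∑ u ∈ Finset.univ.filter (fun u : G => u • x = y), χ u⁻¹ := by
    intro h
    rw [← Equiv.sum_comp (MulAut.conj h).toEquiv, Finset.sum_filter]
    refine Finset.sum_congr rfl (fun u _ => ?_)
    have e1 : (MulAut.conj h).toEquiv u = h * u * h⁻¹ := rfl
    rw [e1]
    have e2 : h⁻¹ * (h * u * h⁻¹) * h = u := by group
    have e3 : (h * u * h⁻¹)⁻¹ = h * u⁻¹ * h⁻¹ := by group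
    rw [e2, e3, hχ]
    split_ifs <;> ring
  rw [Finset.sum_congr rfl (fun h _ => h2 h), Finset.sum_const, Finset.card_univ, nsmul_eq_mul]

section rep

variable {V : Type} [AddCommGroup V] [Module ℂ V] [FiniteDimensional ℂ V]
  (ρ : Representation ℂ G V)

lemma sum_zero_of_not_fixed (x : X)
    (hno : ∀ v : V, (∀ g : G, g • x = x → ρ g v = v) → v = 0) (y : X) :
    ∑ u ∈ Finset.univ.filter (fun u : G => u • x = y), ρ.character u⁻¹ = 0 := by
  have h1 : ∑ u ∈ Finset.univ.filter (fun u : G => u • x = y), ρ u⁻¹ = 0 := by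
    apply LinearMap.ext
    intro v
    rw [LinearMap.zero_apply]
    apply hno
    intro h hh
    rw [LinearMap.sum_apply, map_sum]
    refine Finset.sum_bij' (fun u _ => u * h⁻¹) (fun u _ => u * h) (fun u hu => ?_) (fun u hu => ?_)
      (fun u _ => by group) (fun u _ => by group) (fun u _ => ?_)
    · simp only [Finset.mem_filter, Finset.mem_univ, true_and] at hu ⊢
      have h2 : h⁻¹ • x = x := by rw [inv_smul_eq_iff, hh]
      rw [mul_smul, h2, hu]
    · simp only [Finset.mem_filter, Finset.mem_univ, true_and] at hu ⊢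
      rw [mul_smul, hh, hu]
    · have h2 : (u * h⁻¹)⁻¹ = h * u⁻¹ := by group
      rw [h2, map_mul]
      rfl
  have h2 := congrArg (LinearMap.trace ℂ V) h1
  rw [map_sum, map_zero] at h2
  exact h2

variable {c : G} (hc : ∀ g, c * g = g * c) (hc2 : c * c = 1)

include hc hc2 in
lemma odd_or_even (hirr : ρ.IsIrreducible) : ρ c = 1 ∨ ρ c = -1 := by
  obtain ⟨l, hl, -⟩ := schur ρ hirr (ρ c) (fun g => by rw [← map_mul, hc, map_mul])
  have h1 : ρ c * ρ c = 1 := by rw [← map_mul, hc2, map_one]
  have hnt := nontrivial_of_irr ρ hirr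
  obtain ⟨v, hv⟩ := exists_ne (0 : V)
  have h2 : (l * l) • v = v := by
    have h3 := congrArg (fun T : Module.End ℂ V => T v) h1
    rw [hl] at h3
    have h4 : (l • (l • v)) = v := h3
    rwa [smul_smul] at h4
  have h3 : l * l = 1 := by
    have h4 : (l * l - 1) • v = 0 := by rw [sub_smul, h2, one_smul, sub_self]
    rcases smul_eq_zero.mp h4 with h5 | h5
    · exact sub_eq_zero.mp h5
    · exact absurd h5 hv
  rcases mul_self_eq_one_iff.mp h3 with h4 | h4
  · left; rw [hl, h4, one_smul]
  · right; rw [hl, h4, neg_smul, one_smul]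

include hc hc2 in
/-- the scalar product with a difference. -/
lemma pair_del {ε : ℂ} (hε : ρ c = ε • 1) (x y : X) :
    ∑ g, del c x y g * ρ.character g⁻¹ = Fintype.card G * (1 - ε) *
      ∑ u ∈ Finset.univ.filter (fun u : G => u • x = y), ρ.character u⁻¹ := by
  have h1 : ∑ u ∈ Finset.univ.filter (fun u : G => u • x = c • y), ρ.character u⁻¹ =
      ε * ∑ u ∈ Finset.univ.filter (fun u : G => u • x = y), ρ.character u⁻¹ := by
    rw [Finset.mul_sum]
    have hcc : ∀ u : X, c • (c • u) = u := fun u => by rw [← mul_smul, hc2, one_smul]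
    refine Finset.sum_bij' (fun u _ => c * u) (fun u _ => c * u) (fun u hu => ?_) (fun u hu => ?_)
      (fun u _ => ?_) (fun u _ => ?_) (fun u _ => ?_)
    · simp only [Finset.mem_filter, Finset.mem_univ, true_and] at hu ⊢
      rw [mul_smul, hu, hcc]
    · simp only [Finset.mem_filter, Finset.mem_univ, true_and] at hu ⊢
      rw [mul_smul, hu]
    · rw [← mul_assoc, hc2, one_mul]
    · rw [← mul_assoc, hc2, one_mul]
    · have hci : c⁻¹ = c := by rw [inv_eq_iff_mul_eq_one, hc2]
      have h2 : u⁻¹ = c * (c * u)⁻¹ := by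
        rw [mul_inv_rev, hci, ← mul_assoc, hc, mul_assoc, hc2, mul_one]
      rw [h2]
      change LinearMap.trace ℂ V (ρ _) = ε * LinearMap.trace ℂ V (ρ _)
      rw [map_mul, hε, smul_mul_assoc, one_mul, map_smul, smul_eq_mul]
  unfold del
  simp only [sub_mul]
  rw [Finset.sum_sub_distrib, pair_cnt _ (fun g h => ρ.char_conj g h),
    pair_cnt _ (fun g h => ρ.char_conj g h), h1]
  ring

end rep

variable {c : G} (hc : ∀ g, c * g = g * c) (hc2 : c * c = 1)

include hc hc2 in
/-- the differences are combinations of the odd irreducible characters which occur. -/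
theorem del_mem (x : X) (M : Submodule ℂ (G → ℂ)) (hM : ∀ χ, Good c x χ → χ ∈ M) (y : X) :
    del c x y ∈ M := by
  have h1 := expansion (del c x y) (fun a u => del_class c x y a u)
  have h2 : (Nat.card G : ℂ) • del c x y ∈ M := by
    rw [h1]
    refine Submodule.sum_mem _ (fun χ hχ => ?_)
    have hχ' : χ ∈ IrrC G := (Set.Finite.mem_toFinset _).mp hχ
    obtain ⟨V, _, _, _, ρ, hirr, rfl⟩ := hχ'
    rcases odd_or_even ρ hc hc2 hirr with h3 | h3
    · have h4 := pair_del ρ hc hc2 (ε := 1) (by rw [h3, one_smul]) x y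
      rw [h4, sub_self, mul_zero, zero_mul, zero_smul]
      exact Submodule.zero_mem _
    · by_cases hfix : ∃ v : V, v ≠ 0 ∧ ∀ g : G, g • x = x → ρ g v = v
      · exact Submodule.smul_mem _ _ (hM _ ⟨V, _, _, inferInstance, ρ, hirr, h3, hfix, rfl⟩)
      · have h4 := pair_del ρ hc hc2 (ε := -1) (by rw [h3, neg_smul, one_smul]) x y
        rw [h4, sum_zero_of_not_fixed ρ x (fun v hv => ?_) y, mul_zero, zero_smul]
        · exact Submodule.zero_mem _
        · by_contra hv0
          exact hfix ⟨v, hv0, hv⟩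
  exact (Submodule.smul_mem_iff _ cardC_ne).mp h2

include hc hc2 in
/-- the odd irreducible characters which occur are combinations of the differences. -/
theorem good_mem (x : X) (M : Submodule ℂ (G → ℂ)) (hM : ∀ y : X, del c x y ∈ M)
    {χ : G → ℂ} (hχ : Good c x χ) : χ ∈ M := by
  obtain ⟨V, _, _, _, ρ, hirr, hodd, ⟨v, hv0, hv⟩, rfl⟩ := hχ
  have hnt := nontrivial_of_irr ρ hirr
  set P : Module.End ℂ V := ∑ h ∈ Finset.univ.filter (fun h : G => h • x = x), ρ h with hP
  have hcc : ∀ u : X, c • (c • u) = u := fun u => by rw [← mul_smul, hc2, one_smul]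
  -- the trace of `P` is not zero
  have htr : LinearMap.trace ℂ V P ≠ 0 := by
    let H := MulAction.stabilizer G x
    let σ : Representation ℂ H V := ρ.comp H.subtype
    have : Invertible (Nat.card H : ℂ) :=
      invertibleOfNonzero (by exact_mod_cast Nat.card_pos.ne')
    have h1 := Representation.card_inv_mul_sum_char_eq_finrank σ
    have h2 : LinearMap.trace ℂ V P = ∑ h : H, σ.character h := by
      rw [hP, map_sum]
      exact Finset.sum_subtype _ (fun h => by
        simp only [Finset.mem_filter, Finset.mem_univ, true_and]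
        exact MulAction.mem_stabilizer_iff.symm) _
    have h3 : v ∈ Representation.invariants σ := by
      intro h
      exact hv h (MulAction.mem_stabilizer_iff.mp h.2)
    have h4 : 0 < Module.finrank ℂ (Representation.invariants σ) := by
      rw [Module.finrank_pos_iff]
      exact ⟨⟨⟨v, h3⟩, 0, fun h0 => hv0 (congrArg Subtype.val h0)⟩⟩
    intro h0
    rw [h2] at h0
    rw [h0, mul_zero] at h1
    have h5 : (Module.finrank ℂ (Representation.invariants σ) : ℂ) = 0 := h1.symm
    exact h4.ne' (by exact_mod_cast h5)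
  -- the main identity
  have hS : ∀ g : G, (Module.finrank ℂ V : ℂ) * ∑ k : G, ρ.character k * cnt x (k • x) g =
      Fintype.card G * LinearMap.trace ℂ V P * ρ.character g := by
    intro g
    have h1 : ∑ k : G, ρ.character k * (cnt x (k • x) g : ℂ) =
        ∑ h : G, LinearMap.trace ℂ V (ρ (h⁻¹ * g * h) * P) := by
      simp only [cntC, Finset.mul_sum]
      rw [Finset.sum_comm]
      refine Finset.sum_congr rfl (fun h _ => ?_)
      rw [hP, Finset.mul_sum, map_sum]
      have h2 : ∑ k : G, ρ.character k * (if (h⁻¹ * g * h) • x = k • x then (1 : ℂ) else 0) =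
          ∑ k ∈ Finset.univ.filter (fun k : G => (h⁻¹ * g * h) • x = k • x), ρ.character k := by
        rw [Finset.sum_filter]
        refine Finset.sum_congr rfl (fun k _ => ?_)
        split_ifs <;> ring
      rw [h2]
      refine Finset.sum_bij' (fun k _ => (h⁻¹ * g * h)⁻¹ * k) (fun k _ => (h⁻¹ * g * h) * k)
        (fun k hk => ?_) (fun k hk => ?_) (fun k _ => by group) (fun k _ => by group)
        (fun k _ => ?_)
      · simp only [Finset.mem_filter, Finset.mem_univ, true_and] at hk ⊢
        rw [mul_smul, ← hk, inv_smul_smul]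
      · simp only [Finset.mem_filter, Finset.mem_univ, true_and] at hk ⊢
        rw [mul_smul (h⁻¹ * g * h) k x, hk]
      · rw [← map_mul, mul_inv_cancel_left]
        rfl
    obtain ⟨l, hl1, hl2⟩ := schur ρ hirr (∑ h : G, ρ (h⁻¹ * g * h)) (fun u => by
      rw [Finset.sum_mul, Finset.mul_sum]
      conv_lhs => rw [← Equiv.sum_comp (Equiv.mulRight u⁻¹)]
      refine Finset.sum_congr rfl (fun h _ => ?_)
      rw [← map_mul, ← map_mul]
      congr 1
      change (h * u⁻¹)⁻¹ * g * (h * u⁻¹) * u = u * (h⁻¹ * g * h)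
      group)
    have h3 : LinearMap.trace ℂ V (∑ h : G, ρ (h⁻¹ * g * h)) =
        Fintype.card G * ρ.character g := by
      rw [map_sum]
      have h4 : ∀ h : G, LinearMap.trace ℂ V (ρ (h⁻¹ * g * h)) = ρ.character g := by
        intro h
        have h5 := ρ.char_conj g h⁻¹
        rw [inv_inv] at h5
        exact h5
      rw [Finset.sum_congr rfl (fun h _ => h4 h), Finset.sum_const, Finset.card_univ,
        nsmul_eq_mul]
    rw [h1, ← map_sum, ← Finset.sum_mul, hl1, smul_mul_assoc, one_mul, map_smul, smul_eq_mul]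
    rw [h3] at hl2
    linear_combination (LinearMap.trace ℂ V P) * hl2
  have hdel : (Module.finrank ℂ V : ℂ) • ∑ k : G, ρ.character k • del c x (k • x) =
      (2 * (Fintype.card G * LinearMap.trace ℂ V P)) • ρ.character := by
    funext g
    simp only [Pi.smul_apply, Finset.sum_apply, smul_eq_mul]
    unfold del
    simp only [mul_sub]
    rw [Finset.sum_sub_distrib, mul_sub, hS]
    have h1 : ∑ k : G, ρ.character k * (cnt x (c • k • x) g : ℂ) =
        - ∑ k : G, ρ.character k * (cnt x (k • x) g : ℂ) := by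
      rw [← Finset.sum_neg_distrib, ← Equiv.sum_comp (Equiv.mulLeft c)]
      refine Finset.sum_congr rfl (fun k _ => ?_)
      have h2 : (Equiv.mulLeft c) k = c * k := rfl
      have h3 : ρ.character (c * k) = - ρ.character k := by
        change LinearMap.trace ℂ V (ρ _) = - LinearMap.trace ℂ V (ρ _)
        rw [map_mul, hodd, neg_mul, one_mul, map_neg]
      rw [h2, h3, mul_smul c k, hcc]
      ring
    rw [h1, mul_neg, hS]
    ring
  have h0 : (Module.finrank ℂ V : ℂ) • ∑ k : G, ρ.character k • del c x (k • x) ∈ M :=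
    Submodule.smul_mem _ _ (Submodule.sum_mem _ (fun k _ => Submodule.smul_mem _ _ (hM _)))
  rw [hdel] at h0
  refine (Submodule.smul_mem_iff _ ?_).mp h0
  refine mul_ne_zero two_ne_zero (mul_ne_zero ?_ htr)
  exact_mod_cast Fintype.card_ne_zero

end Pool.Agent.N770.CP
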